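import Mathlib
import Pool.Agent.K9h5.Ram
import Pool.Agent.K9h5.T.Df

/-!
# The ramified point, with arbitrary parameters
-/

set_option autoImplicit false
set_option linter.all false

namespace Pool.Agent.K9h5.Q

open Polynomial Pool.Agent.H901R3.MS WeierstrassCurve Finset Pool.Agent.K9h5 Pool.Agent.K9h5.T

theorem ram_ptQ {r : ℕ} (a b : ℤ) (F : MvPolynomial (Fin r × Fin 3) ℤ) (l : ℕ)
    (j : Fin r) (hD : Disc (a : ℂ) (b : ℂ)) {d : ℕ}
    (hF : F.IsWeightedHomogeneous (wtj j) d) (hld : l ∣ d)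
    (V : Fin r → Fin 3 → ℂ) (W : Fin 3 → PowerSeries ℂ) (n : ℕ)
    (hW0 : W ≠ 0) (hWE : W 1 ^ 2 * W 2 = W 0 ^ 3 + (a : PowerSeries ℂ) * W 0 * W 2 ^ 2 +
      (b : PowerSeries ℂ) * W 2 ^ 3)
    (hord : (evF F (fun i k => if i = j then W k else PowerSeries.C (V i k))).order = n)
    (hln : ¬ l ∣ n) :
    ∃ (V₀ : Fin r → Fin 3 → ℂ) (x₀ : ℂ),
      (V₀ j 2 = 1 ∧ V₀ j 1 ^ 2 = V₀ j 0 ^ 3 + a * V₀ j 0 + b) ∧
      (∀ i, i ≠ j → V₀ i = V i) ∧
      QuadraticAlgebra.norm (phi (a : ℂ) (b : ℂ) (specF F j V₀) (V₀ j 0) (V₀ j 1)) ≠ 0 ∧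
      ¬ l ∣ (QuadraticAlgebra.norm
        (phi (a : ℂ) (b : ℂ) (specF F j V₀) (V₀ j 0) (V₀ j 1))).rootMultiplicity x₀ := by
  classical
  set K := LS ℂ with hK
  set v := plc ℂ with hv
  set ι : ℂ →+* LS ℂ := HahnSeries.C with hιdef
  have hι : ∀ c, ι c ∈ v.A ∧ v.r (ι c) = c := plc_C
  set aC : ℂ := (a : ℂ) with haC
  set bC : ℂ := (b : ℂ) with hbC
  set Φ := specF F j V with hΦ
  have hΦh : Φ.IsHomogeneous d := specF_homog F j hF V
  -- the point over the field of Laurent series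
  set W' : Fin 3 → LS ℂ := fun k => pL ℂ (W k) with hW'
  have hW'0 : W' ≠ 0 := by
    intro h
    apply hW0
    funext k
    have h1 := congrFun h k
    rw [hW', Pi.zero_apply, ← map_zero (pL ℂ)] at h1
    exact pL_inj h1
  have hDK : Disc (ι aC) (ι bC) := disc_map ι hD
  have hOn : OnK (ι aC) (ι bC) W' := by
    refine ⟨hW'0, ?_⟩
    have h1 := congrArg (pL ℂ) hWE
    simp only [map_add, map_mul, map_pow, map_intCast] at h1
    have h2 : ι aC = (a : LS ℂ) := by rw [haC, map_intCast]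
    have h3 : ι bC = (b : LS ℂ) := by rw [hbC, map_intCast]
    rw [h2, h3]
    exact h1
  obtain ⟨P, u, hu, hPu⟩ := t_PTSK (LS ℂ) (ι aC) (ι bC) W' hDK hOn
  set G : Pt (ι aC) (ι bC) → LS ℂ := fun Q => MvPolynomial.eval₂ ι (rep Q) Φ with hG
  set G0 : Pt aC bC → ℂ := fun Q => MvPolynomial.eval (rep Q) Φ with hG0
  have hval : pL ℂ (evF F (fun i k => if i = j then W k else PowerSeries.C (V i k))) =
      u ^ d * G P := by
    rw [evF_map, hG]
    simp only
    rw [← eval₂_homog ι hΦh, hΦ, specF_eval]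
    congr 1
    funext i k
    split_ifs
    · rw [Pi.smul_apply, smul_eq_mul, ← hPu]
    · exact HahnSeries.ofPowerSeries_C _
  obtain ⟨hv0, hvo⟩ := ord_pL hord
  rw [hval] at hv0 hvo
  have hGP0 : G P ≠ 0 := right_ne_zero_of_mul hv0
  have hGPo : (l : ℤ) ∣ (n : ℤ) - (G P).order := by
    rw [HahnSeries.order_mul (pow_ne_zero _ hu) hGP0, HahnSeries.order_pow] at hvo
    obtain ⟨e, he⟩ := hld
    refine ⟨e * u.order, ?_⟩
    rw [← hvo, he, nsmul_eq_mul]
    push_cast
    ring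
  have hln' : ¬ (l : ℤ) ∣ (n : ℤ) := fun h => hln (by exact_mod_cast h)
  have hGPl : ¬ (l : ℤ) ∣ (G P).order := by
    intro h
    apply hln'
    have := dvd_add hGPo h
    simpa using this
  -- constant points
  have hconst : ∀ (Q : Pt (ι aC) (ι bC)) (w : Fin 3 → ℂ), (∀ k, rep Q k = ι (w k)) →
      (l : ℤ) ∣ (G Q).order := by
    intro Q w hw
    have h1 : G Q = ι (MvPolynomial.eval w Φ) := by
      rw [hG]
      simp only
      have h2 : rep Q = fun k => ι (w k) := funext hw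
      rw [h2, ← MvPolynomial.eval₂_id, MvPolynomial.hom_eval₂, RingHom.comp_id]
    rw [h1]
    have : (ι (MvPolynomial.eval w Φ) : LS ℂ).order = 0 := HahnSeries.order_C
    rw [this]
    exact dvd_zero _
  -- reduction and base change
  obtain ⟨red, hr1, hr2, hr3⟩ := redK v (ι aC) (ι bC) aC bC (hι _).1 (hι _).1 (hι _).2 (hι _).2 hD
  obtain ⟨bc, hbc⟩ := baseChange ι aC bC hDK
  have hrb : ∀ c : Pt aC bC, red (bc c) = c := by
    intro c
    cases c with
    | zero =>
      have h1 : (Affine.Point.zero : Pt aC bC) = 0 := rfl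
      rw [h1, map_zero, map_zero]
    | some x y h =>
      obtain ⟨g, hg⟩ := hbc x y h
      rw [hg]
      obtain ⟨_, g', hg'⟩ := hr2 _ _ g (hι x).1
      rw [hg']
      have e1 := (hι x).2
      have e2 := (hι y).2
      simp only [e1, e2]
  have hrepb : ∀ (c : Pt aC bC) (k : Fin 3), rep (bc c) k = ι (rep c k) := by
    intro c k
    exact rep_red ι bc hbc c k
  -- the zeros of the form
  have hPne : P ≠ Affine.Point.zero := by
    intro h
    apply hGPl
    apply hconst P (rep (Affine.Point.zero : Pt aC bC))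
    intro k
    rw [h]
    fin_cases k <;> simp [rep]
  set zΦ : QA ℂ aC bC := evF F (gen j aC bC V) with hzΦ
  have hz0 : zΦ ≠ 0 := by
    intro h
    cases P with
    | zero => exact hPne rfl
    | some x y hP =>
      have hE : y ^ 2 = x ^ 3 + ι aC * x + ι bC := eqn_of hP
      have h1 := evQ_gen ι j aC bC V x y hE F
      rw [← hzΦ, h, map_zero] at h1
      apply hGP0
      rw [hG]
      simp only
      rw [hΦ, specF_eval, h1]
      rfl
  have hzeros : {w : Pt aC bC | G0 w = 0}.Finite := by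
    refine (finite_toSet (VF aC bC (QuadraticAlgebra.norm zΦ))).subset ?_
    intro w hw
    rw [Set.mem_setOf_eq] at hw
    rw [mem_coe]
    cases w with
    | zero => exact zero_mem_VF
    | some x y h =>
      apply mem_VF (norm_ne_zero hz0)
      have hE : y ^ 2 = x ^ 3 + (RingHom.id ℂ) aC * x + (RingHom.id ℂ) bC := eqn_of h
      have h1 := evQ_gen (RingHom.id ℂ) j aC bC V x y hE F
      rw [evQ_apply, eval₂_id, eval₂_id] at h1
      have h2 : G0 (Affine.Point.some x y h) = zΦ.re.eval x + zΦ.im.eval x * y := by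
        rw [h1, hG0]
        simp only
        rw [hΦ, ← MvPolynomial.eval₂_id, specF_eval]
        rfl
      rw [h2] at hw
      have h3 : y ^ 2 = x ^ 3 + aC * x + bC := eqn_of h
      rw [normQ, eval_sub, eval_mul, eval_pow, eval_pow, fE_eval, ← h3]
      linear_combination (zΦ.re.eval x - zΦ.im.eval x * y) * hw
  -- the choice of the translation
  obtain ⟨c, hc⟩ : ∃ c : Pt aC bC, c ∉ ({Affine.Point.zero, red P} : Set (Pt aC bC)) ∪
      {c : Pt aC bC | c + c - red P ∈ {w : Pt aC bC | G0 w = 0}} := by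
    haveI := infinite_Pt hD
    have hfin : (({Affine.Point.zero, red P} : Set (Pt aC bC)) ∪
      {c : Pt aC bC | c + c - red P ∈ {w : Pt aC bC | G0 w = 0}}).Finite := by
      refine Set.Finite.union (Set.toFinite _) (finite_double (by norm_num) _ _ hzeros)
    exact hfin.infinite_compl.nonempty
  rw [Set.mem_union, not_or] at hc
  obtain ⟨hc1, hc2⟩ := hc
  simp only [Set.mem_insert_iff, Set.mem_singleton_iff, not_or, Set.mem_setOf_eq] at hc1 hc2
  obtain ⟨hc0, hcR⟩ := hc1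
  cases c with
  | zero => exact absurd rfl hc0
  | some xc yc hcn =>
  set c : Pt aC bC := Affine.Point.some xc yc hcn with hcdef
  set Q := P - bc c with hQ
  have hredQ : red Q ≠ Affine.Point.zero := by
    rw [hQ, map_sub, hrb]
    intro h
    exact hcR (sub_eq_zero.1 h).symm
  obtain ⟨XQ, YQ, hQn, hQe⟩ : ∃ (x y : LS ℂ) (h : (CV (ι aC) (ι bC)).toAffine.Nonsingular x y),
      Q = Affine.Point.some x y h := by
    cases hQc : Q with
    | zero =>
      exfalso
      apply hredQ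
      rw [hQc]
      exact map_zero red
    | some x y h => exact ⟨x, y, h, rfl⟩
  obtain ⟨gc, hgc⟩ := hbc xc yc hcn
  rw [← hcdef] at hgc
  have hXA : XQ ∈ v.A := by
    by_contra h
    apply hredQ
    rw [hQe]
    exact hr1 _ _ hQn h
  have hXne : XQ ≠ ι xc := by
    intro h
    have hE1 : YQ ^ 2 = XQ ^ 3 + ι aC * XQ + ι bC := eqn_of hQn
    have hE2 : (ι yc) ^ 2 = (ι xc) ^ 3 + ι aC * (ι xc) + ι bC := eqn_of gc
    rw [h, ← hE2] at hE1
    have h1 : YQ = ι yc ∨ YQ = - ι yc := sq_eq_sq_iff_eq_or_eq_neg.1 hE1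
    have hPQ : P = Q + bc c := by rw [hQ]; abel
    rcases h1 with h1 | h1
    · apply hGPl
      apply hconst P (rep (c + c))
      intro k
      rw [← hrepb, hPQ, map_add]
      congr 2
      rw [hQe, hgc]
      simp only [h, h1]
    · apply hPne
      rw [hPQ, hQe, hgc]
      exact add_opp hQn gc h h1
  set N := QuadraticAlgebra.norm (phi aC bC Φ xc yc) with hN
  have hEQ : YQ ^ 2 = XQ ^ 3 + ι aC * XQ + ι bC := eqn_of hQn
  have hEQ' : (-YQ) ^ 2 = XQ ^ 3 + ι aC * XQ + ι bC := by rw [neg_sq]; exact hEQ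
  have hQn' : (CV (ι aC) (ι bC)).toAffine.Nonsingular XQ (-YQ) := (nonsingular_iff hDK).2 hEQ'
  have hNv := evQ_norm ι aC bC XQ YQ hEQ hEQ' (phi aC bC Φ xc yc)
  rw [evQ_phi, evQ_phi, ← hN] at hNv
  have hT : ∀ (Y : LS ℂ) (h : (CV (ι aC) (ι bC)).toAffine.Nonsingular XQ Y),
      MvPolynomial.eval₂ ι (TV (ι xc) (ι yc) XQ Y) Φ = (XQ - ι xc) ^ (3 * d) *
        G (bc c + Affine.Point.some XQ Y h) := by
    intro Y h
    have h1 := eval_TV (MvPolynomial.map ι Φ) (hΦh.map ι) gc h hXne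
    rw [MvPolynomial.eval_map, MvPolynomial.eval_map] at h1
    rw [h1, hgc]
  rw [hT YQ hQn, hT (-YQ) hQn'] at hNv
  have e1 : bc c + Affine.Point.some XQ YQ hQn = P := by
    rw [← hQe, hQ]; abel
  have e2 : bc c + (Affine.Point.some XQ (-YQ) hQn' : Pt (ι aC) (ι bC)) = bc c + bc c - P := by
    rw [← neg_some' hQn hQn', ← hQe, hQ]; abel
  rw [e1, e2] at hNv
  -- the second factor
  have hG2 : G (bc c + bc c - P) ≠ 0 ∧ (l : ℤ) ∣ (G (bc c + bc c - P)).order := by
    obtain ⟨u', hu', hu''⟩ := hr3 (bc c + bc c - P)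
    have h1 : red (bc c + bc c - P) = c + c - red P := by
      rw [map_sub, map_add, hrb]
    have h2 := plc_eval₂ v ι hι Φ (fun k => u' * rep (bc c + bc c - P) k) (fun k => (hu'' k).1)
    have h3 : (fun i => v.r (u' * rep (bc c + bc c - P) i)) = rep (c + c - red P) := by
      funext i
      rw [(hu'' i).2, h1]
    have h4 : MvPolynomial.eval₂ ι (fun k => u' * rep (bc c + bc c - P) k) Φ =
        u' ^ d * G (bc c + bc c - P) := by
      rw [hG]
      simp only
      rw [← eval₂_homog ι hΦh]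
      rfl
    rw [h3, h4] at h2
    obtain ⟨h5, h6⟩ := ord_unit (x := u' ^ d * G (bc c + bc c - P)) (by rw [h2.2]; exact hc2)
    have h7 := right_ne_zero_of_mul h5
    refine ⟨h7, ?_⟩
    rw [HahnSeries.order_mul (pow_ne_zero _ hu') h7, HahnSeries.order_pow] at h6
    obtain ⟨e, he⟩ := hld
    refine ⟨-(e * u'.order), ?_⟩
    rw [he, nsmul_eq_mul] at h6
    push_cast at h6
    linear_combination h6
  have hX0 : XQ - ι xc ≠ 0 := sub_ne_zero.2 hXne
  have hNv0 : N.eval₂ ι XQ ≠ 0 := by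
    rw [hNv]
    exact mul_ne_zero (mul_ne_zero (pow_ne_zero _ hX0) hGP0) (mul_ne_zero (pow_ne_zero _ hX0) hG2.1)
  have hNl : ¬ (l : ℤ) ∣ (N.eval₂ ι XQ).order := by
    intro h
    apply hGPl
    rw [hNv, HahnSeries.order_mul (mul_ne_zero (pow_ne_zero _ hX0) hGP0)
      (mul_ne_zero (pow_ne_zero _ hX0) hG2.1), HahnSeries.order_mul (pow_ne_zero _ hX0) hGP0,
      HahnSeries.order_mul (pow_ne_zero _ hX0) hG2.1, HahnSeries.order_pow] at h
    obtain ⟨e, he⟩ := hld
    obtain ⟨m, hm⟩ := hG2.2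
    obtain ⟨m', hm'⟩ := h
    refine ⟨m' - m - 2 * (3 * e * (XQ - ι xc).order), ?_⟩
    rw [hm, he, nsmul_eq_mul] at hm'
    push_cast at hm'
    linear_combination hm'
  have hN0 : N ≠ 0 := by
    intro h
    apply hNv0
    rw [h, eval₂_zero]
  -- the multiplicity
  set V₀ : Fin r → Fin 3 → ℂ := fun i => if i = j then ![xc, yc, 1] else V i with hV₀
  have hs : specF F j V₀ = Φ := by
    apply specF_congr
    intro i hi
    rw [hV₀]
    simp only [if_neg hi]
  have h30 : V₀ j 0 = xc := by rw [hV₀]; simp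
  have h31 : V₀ j 1 = yc := by rw [hV₀]; simp
  refine ⟨V₀, v.r XQ, ?_, ?_, ?_, ?_⟩
  · rw [h30, h31]
    refine ⟨by rw [hV₀]; simp, ?_⟩
    exact eqn_of hcn
  · intro i hi
    rw [hV₀]
    simp only [if_neg hi]
  · rw [hs, h30, h31]
    exact hN0
  · rw [hs, h30, h31, ← hN]
    intro hdiv
    obtain ⟨N1, hN1, hN1'⟩ := exists_eq_pow_rootMultiplicity_mul_and_not_dvd N hN0 (v.r XQ)
    rw [dvd_iff_isRoot, IsRoot.def] at hN1'
    have h1 := plc_eval v ι hι N1 XQ hXA
    obtain ⟨h2, h3⟩ := ord_unit (x := N1.eval₂ ι XQ) (by rw [h1.2]; exact hN1')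
    have h4 : N.eval₂ ι XQ = (XQ - ι (v.r XQ)) ^ (N.rootMultiplicity (v.r XQ)) * N1.eval₂ ι XQ := by
      conv_lhs => rw [hN1]
      rw [eval₂_mul, eval₂_pow, eval₂_sub, eval₂_X, eval₂_C]
    apply hNl
    rw [h4] at hNv0 ⊢
    rw [HahnSeries.order_mul (left_ne_zero_of_mul hNv0) h2, h3, add_zero, HahnSeries.order_pow,
      nsmul_eq_mul]
    exact Dvd.dvd.mul_right (by exact_mod_cast hdiv) _

end Pool.Agent.K9h5.Q
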