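import Mathlib
import Pool.Agent.K9h5.M.Est

/-!
# Numerical estimates for the second theorem
-/

set_option autoImplicit false
set_option linter.all false

namespace Pool.Agent.K9h5.Q

open Finset Filter Pool.Agent.K9h5 Pool.Agent.K9h5.M

theorem rp1 (x : ℝ) (hx : 1 ≤ x) : 1 / x ^ (998 / 1000 : ℝ) ≤ x ^ (-(123 / 1000) : ℝ) := by
  have hx0 : 0 < x := by linarith
  rw [one_div, ← Real.rpow_neg hx0.le]
  exact Real.rpow_le_rpow_of_exponent_le hx (by norm_num)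

theorem rp2 (x : ℝ) (hx : 1 ≤ x) :
    x ^ (7 / 8 : ℝ) / x ^ (998 / 1000 : ℝ) ≤ x ^ (-(123 / 1000) : ℝ) := by
  have hx0 : 0 < x := by linarith
  rw [← Real.rpow_sub hx0]
  exact Real.rpow_le_rpow_of_exponent_le hx (by norm_num)

theorem rp3 (x : ℝ) (hx : 1 ≤ x) :
    x / √(x ^ (998 / 1000 : ℝ)) = x ^ (501 / 1000 : ℝ) := by
  have hx0 : 0 < x := by linarith
  rw [Real.sqrt_eq_rpow, ← Real.rpow_mul hx0.le]
  nth_rewrite 1 [← Real.rpow_one x]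
  rw [← Real.rpow_sub hx0]
  norm_num

theorem rp4 (x : ℝ) (hx : 1 ≤ x) :
    x / (x ^ (998 / 1000 : ℝ) * √(x ^ (998 / 1000 : ℝ))) = x ^ (-(497 / 1000) : ℝ) := by
  have hx0 : 0 < x := by linarith
  rw [Real.sqrt_eq_rpow, ← Real.rpow_mul hx0.le, ← Real.rpow_add hx0]
  nth_rewrite 1 [← Real.rpow_one x]
  rw [← Real.rpow_sub hx0]
  norm_num

/-- negative powers of `x` in terms of `T` -/
theorem rp5 (T x s : ℝ) (m : ℕ) (hT : 1 ≤ T) (hx : 0 < x) (hxl : (T ^ m) ^ (4 / 5 : ℝ) / 2 ≤ x)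
    (hs : 0 ≤ s) (hs1 : s ≤ 1) : x ^ (-s) ≤ 2 * T ^ (-(4 / 5 * s * (m : ℝ))) := by
  have hT0 : 0 < T := by linarith
  have ht : 0 < T ^ m := by positivity
  have h0 : 0 < (T ^ m) ^ (4 / 5 : ℝ) := by positivity
  have h1 : x ^ (-s) ≤ ((T ^ m) ^ (4 / 5 : ℝ) / 2) ^ (-s) :=
    Real.rpow_le_rpow_of_nonpos (by positivity) hxl (by linarith)
  refine h1.trans ?_
  rw [div_eq_mul_inv, Real.mul_rpow h0.le (by positivity), mul_comm]
  refine mul_le_mul ?_ (le_of_eq ?_) (by positivity) (by norm_num)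
  · rw [← Real.rpow_neg_one, ← Real.rpow_mul (by norm_num)]
    calc (2 : ℝ) ^ ((-1 : ℝ) * -s) ≤ (2 : ℝ) ^ (1 : ℝ) :=
          Real.rpow_le_rpow_of_exponent_le (by norm_num) (by linarith)
      _ = 2 := Real.rpow_one _
  · rw [← Real.rpow_natCast, ← Real.rpow_mul hT0.le, ← Real.rpow_mul hT0.le]
    congr 1
    ring

theorem num_final2 (C₁ C₃ c₀ rr M3 T t x y w cl : ℝ) (m : ℕ) (hm : 4 ≤ m) (hC₁ : 0 ≤ C₁)
    (hC₃ : 0 ≤ C₃) (hc₀ : 0 < c₀) (hrr : 0 ≤ rr) (hM3 : 0 ≤ M3) (hT : 1 ≤ T) (ht : t = T ^ m)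
    (hx : 1 ≤ x) (hxt : x ≤ t ^ (4 / 5 : ℝ)) (hxl : t ^ (4 / 5 : ℝ) / 2 ≤ x)
    (hy : y = x ^ (998 / 1000 : ℝ)) (hw : y ≤ w) (hcl : 0 ≤ cl) :
    2 * (C₁ * rr * (C₃ * T ^ 2 / y)) + 4 / c₀ ^ 2 *
      ((C₃ * T ^ 2 / y) * √(2 * M3 * x * √(2 * x * (C₁ * √x + 2 * C₁))) +
        x * √(4 * C₁ * M3 * (C₃ * T ^ 2 / y)) * (1 / √t + M3 * (cl * T ^ 2) / w)) ≤
    (2 * (2 * C₁ * rr * C₃ + 4 / c₀ ^ 2 * (C₃ * √(2 * M3 * √(6 * C₁)) +
      √(4 * C₁ * M3 * C₃) * (1 + M3 * cl)))) * T ^ (2 - 98 / 1000 * (m : ℝ)) := by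
  have hx0 : 0 < x := by linarith
  have hy0 : 0 < y := by rw [hy]; positivity
  have hT0 : 0 < T := by linarith
  have ht0 : 0 < t := by rw [ht]; positivity
  have hst : 0 < √t := Real.sqrt_pos.2 ht0
  have hw0 : 0 < w := by linarith
  have hsy : 0 < √y := Real.sqrt_pos.2 hy0
  have hmr : (4 : ℝ) ≤ m := by exact_mod_cast hm
  rw [ht] at hxl hxt
  set Z : ℝ := T ^ (2 - 98 / 1000 * (m : ℝ)) with hZ
  have hZ0 : 0 < Z := by positivity
  have e0 : T ^ 2 * x ^ (-(123 / 1000) : ℝ) ≤ 2 * Z := by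
    have h1 := rp5 T x (123 / 1000) m hT hx0 hxl (by norm_num) (by norm_num)
    calc T ^ 2 * x ^ (-(123 / 1000) : ℝ) ≤ T ^ 2 * (2 * T ^ (-(4 / 5 * (123 / 1000) * (m : ℝ)))) :=
          mul_le_mul_of_nonneg_left h1 (by positivity)
      _ = 2 * T ^ (2 + -(4 / 5 * (123 / 1000) * (m : ℝ))) := by
          rw [Real.rpow_add hT0, Real.rpow_two]; ring
      _ ≤ 2 * Z := by
          apply mul_le_mul_of_nonneg_left _ (by norm_num)
          exact Real.rpow_le_rpow_of_exponent_le hT (by nlinarith)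
  have e5 : 1 / y ≤ x ^ (-(123 / 1000) : ℝ) := by rw [hy]; exact rp1 x hx
  have e2 : x ^ (7 / 8 : ℝ) / y ≤ x ^ (-(123 / 1000) : ℝ) := by rw [hy]; exact rp2 x hx
  have e3 : x / √y = x ^ (501 / 1000 : ℝ) := by rw [hy]; exact rp3 x hx
  have e4 : x / (y * √y) = x ^ (-(497 / 1000) : ℝ) := by rw [hy]; exact rp4 x hx
  have e1 := est1 C₁ (2 * M3) x hC₁ (by positivity) hx
  have f3 : T * (x / √y) * (1 / √t) ≤ Z := by
    have h1 : x ^ (501 / 1000 : ℝ) ≤ T ^ (4 / 5 * (501 / 1000) * (m : ℝ)) := by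
      refine (Real.rpow_le_rpow hx0.le hxt (by norm_num)).trans (le_of_eq ?_)
      rw [← Real.rpow_natCast, ← Real.rpow_mul hT0.le, ← Real.rpow_mul hT0.le]
      congr 1
      ring
    have h2 : 1 / √t = T ^ (-(1 / 2 * (m : ℝ))) := by
      rw [ht, Real.sqrt_eq_rpow, one_div, ← Real.rpow_neg (by positivity), ← Real.rpow_natCast,
        ← Real.rpow_mul hT0.le]
      congr 1
      ring
    rw [e3, h2]
    calc T * x ^ (501 / 1000 : ℝ) * T ^ (-(1 / 2 * (m : ℝ))) ≤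
        T * T ^ (4 / 5 * (501 / 1000) * (m : ℝ)) * T ^ (-(1 / 2 * (m : ℝ))) := by
          apply mul_le_mul_of_nonneg_right _ (by positivity)
          exact mul_le_mul_of_nonneg_left h1 hT0.le
      _ = T ^ (1 + 4 / 5 * (501 / 1000) * (m : ℝ) + -(1 / 2 * (m : ℝ))) := by
          rw [Real.rpow_add hT0, Real.rpow_add hT0, Real.rpow_one]
      _ ≤ Z := Real.rpow_le_rpow_of_exponent_le hT (by nlinarith)
  have f4 : T ^ 3 * (x / (y * √y)) ≤ 2 * Z := by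
    rw [e4]
    have h1 := rp5 T x (497 / 1000) m hT hx0 hxl (by norm_num) (by norm_num)
    calc T ^ 3 * x ^ (-(497 / 1000) : ℝ) ≤ T ^ 3 * (2 * T ^ (-(4 / 5 * (497 / 1000) * (m : ℝ)))) :=
          mul_le_mul_of_nonneg_left h1 (by positivity)
      _ = 2 * T ^ ((3 : ℕ) + -(4 / 5 * (497 / 1000) * (m : ℝ))) := by
          rw [Real.rpow_add hT0, Real.rpow_natCast]; ring
      _ ≤ 2 * Z := by
          apply mul_le_mul_of_nonneg_left _ (by norm_num)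
          refine Real.rpow_le_rpow_of_exponent_le hT ?_
          push_cast
          nlinarith
  -- first term
  have t1 : 2 * (C₁ * rr * (C₃ * T ^ 2 / y)) ≤ (2 * C₁ * rr * C₃) * (2 * Z) := by
    have h1 : T ^ 2 * (1 / y) ≤ 2 * Z :=
      (mul_le_mul_of_nonneg_left e5 (by positivity)).trans e0
    calc 2 * (C₁ * rr * (C₃ * T ^ 2 / y)) = (2 * C₁ * rr * C₃) * (T ^ 2 * (1 / y)) := by ring
      _ ≤ (2 * C₁ * rr * C₃) * (2 * Z) := mul_le_mul_of_nonneg_left h1 (by positivity)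
  -- second term
  have t2 : (C₃ * T ^ 2 / y) * √(2 * M3 * x * √(2 * x * (C₁ * √x + 2 * C₁))) ≤
      (C₃ * √(2 * M3 * √(6 * C₁))) * (2 * Z) := by
    have h1 : T ^ 2 * (x ^ (7 / 8 : ℝ) / y) ≤ 2 * Z :=
      (mul_le_mul_of_nonneg_left e2 (by positivity)).trans e0
    calc (C₃ * T ^ 2 / y) * √(2 * M3 * x * √(2 * x * (C₁ * √x + 2 * C₁))) ≤
        (C₃ * T ^ 2 / y) * (√(2 * M3 * √(6 * C₁)) * x ^ (7 / 8 : ℝ)) :=
          mul_le_mul_of_nonneg_left e1 (by positivity)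
      _ = (C₃ * √(2 * M3 * √(6 * C₁))) * (T ^ 2 * (x ^ (7 / 8 : ℝ) / y)) := by ring
      _ ≤ (C₃ * √(2 * M3 * √(6 * C₁))) * (2 * Z) :=
          mul_le_mul_of_nonneg_left h1 (by positivity)
  -- third term
  have hsq : √(4 * C₁ * M3 * (C₃ * T ^ 2 / y)) = √(4 * C₁ * M3 * C₃) * (T / √y) := by
    have h1 : 4 * C₁ * M3 * (C₃ * T ^ 2 / y) = (4 * C₁ * M3 * C₃) * (T ^ 2 / y) := by ring
    rw [h1, Real.sqrt_mul (by positivity), Real.sqrt_div (by positivity), Real.sqrt_sq hT0.le]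
  have t3 : x * √(4 * C₁ * M3 * (C₃ * T ^ 2 / y)) * (1 / √t + M3 * (cl * T ^ 2) / w) ≤
      (√(4 * C₁ * M3 * C₃) * (1 + M3 * cl)) * (2 * Z) := by
    rw [hsq]
    have h1 : x * (T / √y) * (1 / √t) ≤ 2 * Z := by
      calc x * (T / √y) * (1 / √t) = T * (x / √y) * (1 / √t) := by ring
        _ ≤ Z := f3
        _ ≤ 2 * Z := by linarith
    have h2 : x * (T / √y) * (M3 * (cl * T ^ 2) / w) ≤ (M3 * cl) * (2 * Z) := by
      calc x * (T / √y) * (M3 * (cl * T ^ 2) / w) ≤ x * (T / √y) * (M3 * (cl * T ^ 2) / y) := by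
            apply mul_le_mul_of_nonneg_left _ (by positivity)
            exact div_le_div_of_nonneg_left (by positivity) hy0 hw
        _ = (M3 * cl) * (T ^ 3 * (x / (y * √y))) := by field_simp
        _ ≤ (M3 * cl) * (2 * Z) := mul_le_mul_of_nonneg_left f4 (by positivity)
    calc x * (√(4 * C₁ * M3 * C₃) * (T / √y)) * (1 / √t + M3 * (cl * T ^ 2) / w) =
        √(4 * C₁ * M3 * C₃) * (x * (T / √y) * (1 / √t) +
          x * (T / √y) * (M3 * (cl * T ^ 2) / w)) := by ring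
      _ ≤ √(4 * C₁ * M3 * C₃) * (2 * Z + (M3 * cl) * (2 * Z)) := by
          apply mul_le_mul_of_nonneg_left _ (Real.sqrt_nonneg _)
          linarith
      _ = (√(4 * C₁ * M3 * C₃) * (1 + M3 * cl)) * (2 * Z) := by ring
  have hc : 0 < 4 / c₀ ^ 2 := by positivity
  calc _ ≤ (2 * C₁ * rr * C₃) * (2 * Z) + 4 / c₀ ^ 2 *
      ((C₃ * √(2 * M3 * √(6 * C₁))) * (2 * Z) +
        (√(4 * C₁ * M3 * C₃) * (1 + M3 * cl)) * (2 * Z)) := by
        apply add_le_add t1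
        apply mul_le_mul_of_nonneg_left _ hc.le
        exact add_le_add t2 t3
    _ = _ := by ring

open Classical in
/-- the supply of primes -/
theorem primes_big2 (Adm : ℕ → Prop)
    (hsup : ∃ cP : ℝ, 0 < cP ∧ ∃ TP : ℕ, ∀ X : ℕ, TP ≤ X → cP * (X / Real.log X) ≤
      (((range (X + 1)).filter (fun p => p.Prime ∧ Adm p)).card : ℝ)) (p₀ : ℕ) :
    ∃ X₀ : ℕ, ∀ X : ℕ, X₀ ≤ X → 4 * (X : ℝ) ^ (998 / 1000 : ℝ) ≤
      (((range (X + 1)).filter (fun p => p.Prime ∧ Adm p ∧ p₀ ≤ p)).card : ℝ) := by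
  obtain ⟨cP, hcP, TP, hTP⟩ := hsup
  have hev := (ev_log (t := 1 / 1000) (c := cP / 2) (by norm_num) (by positivity)).and
    ((ev_pow (s := 998 / 1000) (t := 999 / 1000) 4 (by norm_num)).and
      ((ev_pow (s := 0) (t := 999 / 1000) p₀ (by norm_num)).and
        ((eventually_ge_atTop TP).and (eventually_ge_atTop 3))))
  rw [eventually_atTop] at hev
  obtain ⟨X₀, hX₀⟩ := hev
  refine ⟨X₀, fun X hX => ?_⟩
  obtain ⟨h1, h2, h3, h4, h5⟩ := hX₀ X hX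
  have hXr : (3 : ℝ) ≤ X := by exact_mod_cast h5
  have hX0 : (0 : ℝ) < X := by linarith
  have hlog : 0 < Real.log X := Real.log_pos (by linarith)
  have hmain : 2 * (X : ℝ) ^ (999 / 1000 : ℝ) ≤ cP * (X / Real.log X) := by
    have k1 : (X : ℝ) = (X : ℝ) ^ (999 / 1000 : ℝ) * (X : ℝ) ^ (1 / 1000 : ℝ) := by
      rw [← Real.rpow_add hX0]
      norm_num
    rw [mul_div_assoc', le_div_iff₀ hlog]
    calc 2 * (X : ℝ) ^ (999 / 1000 : ℝ) * Real.log X ≤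
        2 * (X : ℝ) ^ (999 / 1000 : ℝ) * (cP / 2 * (X : ℝ) ^ (1 / 1000 : ℝ)) :=
          mul_le_mul_of_nonneg_left h1 (by positivity)
      _ = cP * ((X : ℝ) ^ (999 / 1000 : ℝ) * (X : ℝ) ^ (1 / 1000 : ℝ)) := by ring
      _ = cP * X := by rw [← k1]
  have h6 := hTP X h4
  have h7 : ((range (X + 1)).filter (fun p => p.Prime ∧ Adm p)).card ≤
      ((range (X + 1)).filter (fun p => p.Prime ∧ Adm p ∧ p₀ ≤ p)).card + p₀ := by
    have h8 : (range (X + 1)).filter (fun p => p.Prime ∧ Adm p) ⊆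
        (range (X + 1)).filter (fun p => p.Prime ∧ Adm p ∧ p₀ ≤ p) ∪ range p₀ := by
      intro p hp
      rw [mem_filter] at hp
      rw [mem_union, mem_filter, mem_range]
      by_cases h : p₀ ≤ p
      · exact Or.inl ⟨mem_range.1 hp.1, hp.2.1, hp.2.2, h⟩
      · exact Or.inr (mem_range.2 (not_le.1 h))
    have h9 := (card_le_card h8).trans (card_union_le _ _)
    rwa [card_range] at h9
  have h8 : (((range (X + 1)).filter (fun p => p.Prime ∧ Adm p)).card : ℝ) ≤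
      (((range (X + 1)).filter (fun p => p.Prime ∧ Adm p ∧ p₀ ≤ p)).card : ℝ) + p₀ := by
    exact_mod_cast h7
  rw [Real.rpow_zero, mul_one] at h3
  linarith

end Pool.Agent.K9h5.Q
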