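import Mathlib
import Pool.Agent.K9h5.N.Gen2
import Pool.Agent.K9h5.Q.MultZ

/-!
# The core theorem for groups with a height and reductions: families
-/

set_option autoImplicit false
set_option linter.all false

namespace Pool.Agent.K9h5.Q

open Pool.Agent.H901R3.MS WeierstrassCurve Finset Filter Pool.Agent.K9h5 Pool.Agent.K9h5.T
  Pool.Agent.K9h5.N

open Classical in
/-- **The core theorem, for families.** -/
theorem core_genF {r : ℕ} (a b : Fin r → ℤ) (Gp : Fin r → Type) [∀ i, AddCommGroup (Gp i)]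
    (hP : ∀ i, Gp i → ℝ) (Adm : ℕ → Prop)
    (rr : ∀ (p : ℕ) [Fact p.Prime] (i : Fin r), Gp i →+ Pt (a i : ZMod p) (b i : ZMod p))
    (hKill : ∀ i, Kill (hP i) Adm (fun p _ => rr p i))
    (hsup : ∃ cP : ℝ, 0 < cP ∧ ∃ TP : ℕ, ∀ X : ℕ, TP ≤ X → cP * (X / Real.log X) ≤
      (((range (X + 1)).filter (fun p => p.Prime ∧ Adm p)).card : ℝ)) (j : Fin r)
    (ι : Type) (size : ι → ℝ) (bad : ι → ℕ → Prop) (Cb : ℝ)
    (hbad : ∀ θ, ∀ S : Finset ℕ, (∀ p ∈ S, p.Prime ∧ Adm p ∧ bad θ p) → (S.card : ℝ) ≤ Cb * size θ)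
    (hCb : 0 ≤ Cb)
    (Lift : ι → (∀ i, Gp i) → Prop)
    (G : ι → ∀ (p : ℕ) [Fact p.Prime], (∀ i, Pt (a i : ZMod p) (b i : ZMod p)) →
      Pt (a j : ZMod p) (b j : ZMod p) → ℝ)
    (hG1 : ∀ θ (p : ℕ) [Fact p.Prime] (P : ∀ i, Pt (a i : ZMod p) (b i : ZMod p))
      (u : Pt (a j : ZMod p) (b j : ZMod p)), |G θ p P u| ≤ 1)
    (hGcg : ∀ θ (p : ℕ) [Fact p.Prime] (P P' : ∀ i, Pt (a i : ZMod p) (b i : ZMod p)),
      (∀ i, i ≠ j → P i = P' i) → G θ p P = G θ p P')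
    (Z : ι → ∀ (p : ℕ) [Fact p.Prime], (∀ i, Pt (a i : ZMod p) (b i : ZMod p)) → Prop)
    (C₁ : ℝ) (p₀ : ℕ) (hC₁ : 0 ≤ C₁)
    (hdisc : ∀ (p : ℕ) [Fact p.Prime], p₀ ≤ p → (∀ i, Disc (a i : ZMod p) (b i : ZMod p)) ∧ p ≠ 2)
    (hloc : ∀ θ (p : ℕ) [Fact p.Prime], p₀ ≤ p → Adm p → ¬ bad θ p →
      (∀ S : ∀ i, Finset (Pt (a i : ZMod p) (b i : ZMod p)),
        (((Fintype.piFinset S).filter (Z θ p)).card : ℝ) ≤ C₁ * bdT a b p S) ∧
      (∀ P : ∀ i, Pt (a i : ZMod p) (b i : ZMod p), GoodZ a b j p (Z θ p) P →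
        ∃ Bd : Finset (Pt (a j : ZMod p) (b j : ZMod p)), 3 / 2 * (Bd.card : ℝ) ≤ C₁ ∧
          ∀ h h', h ∉ Bd → h' ∉ Bd → h + h' ∉ Bd → h - h' ∉ Bd →
            |∑ u : Pt (a j : ZMod p) (b j : ZMod p), G θ p P u * G θ p P (u + h) *
              G θ p P (u + h') * G θ p P (u + (h + h'))| ≤ C₁ * √p))
    (c₀ : ℝ) (hc₀ : 0 < c₀)
    (hlift : ∀ θ (p : ℕ) [Fact p.Prime], p₀ ≤ p → Adm p → ¬ bad θ p → ∀ P, Lift θ P →
      c₀ ≤ G θ p (fun i => rr p i (P i)) (rr p j (P j)))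
    (e : ∀ i, Gp i) (e' : Fin 3 → Gp j) (c : ℝ)
    (he : ∀ i, i ≠ j → HBg (hP i) (fun _ : Fin 1 => e i) c) (he' : HBg (hP j) e' c) :
    ∃ C : ℝ, 0 ≤ C ∧ ∀ θ, ∀ T : ℕ, 1 ≤ T → size θ ≤ (T : ℝ) ^ (33 / 100 : ℝ) → ∀ τ : ∀ i, Gp i,
      ∑ n ∈ Nx j T, (((Bx T).filter (fun m => Lift θ (ptg Gp j e e' τ n m))).card : ℝ) ≤
      C * ((T : ℝ) ^ (r - 1) * (T : ℝ) ^ 3 * (T : ℝ) ^ (-(1 / 150) : ℝ)) := by
  obtain ⟨X₀, hX₀⟩ := primes_existG a b Gp hP Adm rr hKill hsup j e e' c he he' p₀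
    (fun p _ hp => (hdisc p hp).1)
  obtain ⟨C₄, hC₄, hker⟩ := small_kernelG (hP j) Adm (fun p _ => rr p j) (hKill j) e' c he'.1 he'.2.1 he'.2.2
  obtain ⟨C₂, hC₂, hcard⟩ := card_Pt_le
  set κ₀ : ℝ := 1 / c₀ ^ 2 with hκ₀
  have hκ₀0 : 0 ≤ κ₀ := by positivity
  set C₅ : ℝ := 4 * (C₁ * 2 ^ r * r) + κ₀ * (16 * C₄ + (√(C₁ + √(264 * C₁)) + 96)) with hC₅
  have hC₅0 : 0 ≤ C₅ := by positivity
  -- large X
  have hev := (eventually_ge_atTop (max X₀ 4)).and
    ((ev_pow (s := 0) (t := 1 / 2) C₂ (by norm_num)).and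
      ((ev_pow (s := 33 / 100) (t := 594 / 1000) 4 (by norm_num)).and
        ((ev_pow (s := 99 / 100) (t := 995 / 1000) (4 * Cb) (by norm_num)).and
          (ev_pow (s := 994 / 1000) (t := 995 / 1000) 2 (by norm_num)))))
  rw [eventually_atTop] at hev
  obtain ⟨X₁, hX₁⟩ := hev
  -- small T
  set T₀ : ℕ := (X₁ + 1) ^ 3 with hT₀
  refine ⟨max (2 * C₅) (T₀ : ℝ), le_max_of_le_left (by positivity), ?_⟩
  intro θ T hT hsize τ
  have hTr : (1 : ℝ) ≤ T := by exact_mod_cast hT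
  have hT0 : (0 : ℝ) < T := by linarith
  by_cases hTT : T < T₀
  · -- trivial bound
    have h1 : ∑ n ∈ Nx j T, (((Bx T).filter (fun m => Lift θ (ptg Gp j e e' τ n m))).card : ℝ) ≤
        (T : ℝ) ^ (r - 1) * (T : ℝ) ^ 3 := by
      refine (sum_le_card_nsmul _ _ ((T : ℝ) ^ 3) ?_).trans ?_
      · intro n _
        rw [← Bx_card]
        exact_mod_cast card_le_card (filter_subset _ _)
      · rw [nsmul_eq_mul, Nx_card]
    refine h1.trans ?_
    have h2 : 1 ≤ (T₀ : ℝ) * (T : ℝ) ^ (-(1 / 150) : ℝ) := by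
      rw [Real.rpow_neg hT0.le, ← div_eq_mul_inv, one_le_div (by positivity)]
      calc (T : ℝ) ^ (1 / 150 : ℝ) ≤ (T : ℝ) ^ (1 : ℝ) :=
            Real.rpow_le_rpow_of_exponent_le hTr (by norm_num)
        _ = T := Real.rpow_one _
        _ ≤ T₀ := by exact_mod_cast hTT.le
    have h3 : (0 : ℝ) ≤ (T : ℝ) ^ (r - 1) * (T : ℝ) ^ 3 := by positivity
    calc (T : ℝ) ^ (r - 1) * (T : ℝ) ^ 3 ≤
        ((T : ℝ) ^ (r - 1) * (T : ℝ) ^ 3) * ((T₀ : ℝ) * (T : ℝ) ^ (-(1 / 150) : ℝ)) :=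
          le_mul_of_one_le_right h3 h2
      _ = T₀ * ((T : ℝ) ^ (r - 1) * (T : ℝ) ^ 3 * (T : ℝ) ^ (-(1 / 150) : ℝ)) := by ring
      _ ≤ _ := mul_le_mul_of_nonneg_right (le_max_right _ _) (by positivity)
  · rw [not_lt] at hTT
    -- the parameter X
    set X : ℕ := ⌊(T : ℝ) ^ (1 / 3 : ℝ)⌋₊ with hX
    have hT13 : (1 : ℝ) ≤ (T : ℝ) ^ (1 / 3 : ℝ) := Real.one_le_rpow hTr (by norm_num)
    obtain ⟨hXl, hX1⟩ := floor_ge hT13
    rw [← hX] at hXl hX1
    have hXu : (X : ℝ) ≤ (T : ℝ) ^ (1 / 3 : ℝ) := Nat.floor_le (by positivity)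
    have hX3 : (X : ℝ) ^ 3 ≤ T := by
      refine (pow_le_pow_left₀ (Nat.cast_nonneg _) hXu 3).trans (le_of_eq ?_)
      rw [← Real.rpow_natCast, ← Real.rpow_mul hT0.le]
      norm_num
    have hXX₁ : X₁ ≤ X := by
      rw [hX]
      apply Nat.le_floor
      have h1 : ((X₁ : ℝ)) ^ 3 ≤ T := by
        have h2 : ((X₁ + 1 : ℕ) : ℝ) ^ 3 ≤ T := by exact_mod_cast hTT
        refine le_trans ?_ h2
        apply pow_le_pow_left₀ (Nat.cast_nonneg _)
        push_cast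
        linarith
      calc (X₁ : ℝ) = ((X₁ : ℝ) ^ 3) ^ (1 / 3 : ℝ) := by
            rw [← Real.rpow_natCast, ← Real.rpow_mul (Nat.cast_nonneg _)]
            norm_num
        _ ≤ (T : ℝ) ^ (1 / 3 : ℝ) := Real.rpow_le_rpow (by positivity) h1 (by norm_num)
    obtain ⟨hXa, hXb, hXc, hXd, hXe⟩ := hX₁ X hXX₁
    have hXX₀ : X₀ ≤ X := (le_max_left _ _).trans hXa
    have hX4 : 4 ≤ X := (le_max_right _ _).trans hXa
    have hX4r : (4 : ℝ) ≤ X := by exact_mod_cast hX4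
    have hX0 : (0 : ℝ) < X := by linarith
    have hX1r : (1 : ℝ) ≤ X := by linarith
    obtain ⟨PA, hPA, hPAc⟩ := hX₀ X hXX₀
    obtain ⟨PP, hPPd⟩ : ∃ PP : Finset ℕ, PP = PA.filter (fun p => ¬ bad θ p) := ⟨_, rfl⟩
    have hPP : ∀ p ∈ PP, p.Prime ∧ Adm p ∧ p₀ ≤ p ∧ p ≤ X ∧ ∀ hp : Fact p.Prime,
        (∀ i, i ≠ j → (X : ℝ) ^ (33 / 100 : ℝ) / 2 ≤ addOrderOf (@rr p hp i (e i))) ∧
        (X : ℝ) ^ (594 / 1000 : ℝ) / 8 ≤
          ((gset (fun k => @rr p hp j (e' k))).ncard : ℝ) := by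
      intro p hp
      rw [hPPd, mem_filter] at hp
      exact hPA p hp.1
    have hPPb : ∀ p ∈ PP, ¬ bad θ p := by
      intro p hp
      rw [hPPd, mem_filter] at hp
      exact hp.2
    have hPPc : (X : ℝ) ^ (994 / 1000 : ℝ) ≤ PP.card := by
      have h1 := card_filter_add_card_filter_not (s := PA) (fun p => bad θ p)
      rw [← hPPd] at h1
      have h2 : ((PA.filter (fun p => bad θ p)).card : ℝ) ≤ Cb * size θ :=
        hbad θ _ (fun p hp => by
          rw [mem_filter] at hp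
          exact ⟨(hPA p hp.1).1, (hPA p hp.1).2.1, hp.2⟩)
      have h3 : (T : ℝ) ^ (33 / 100 : ℝ) ≤ 2 * (X : ℝ) ^ (99 / 100 : ℝ) := by
        have h31 : (T : ℝ) ^ (1 / 3 : ℝ) ≤ 2 * X := by linarith
        calc (T : ℝ) ^ (33 / 100 : ℝ) = ((T : ℝ) ^ (1 / 3 : ℝ)) ^ (99 / 100 : ℝ) := by
              rw [← Real.rpow_mul hT0.le]
              norm_num
          _ ≤ (2 * (X : ℝ)) ^ (99 / 100 : ℝ) :=
              Real.rpow_le_rpow (by positivity) h31 (by norm_num)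
          _ = (2 : ℝ) ^ (99 / 100 : ℝ) * (X : ℝ) ^ (99 / 100 : ℝ) :=
              Real.mul_rpow (by norm_num) hX0.le
          _ ≤ 2 * (X : ℝ) ^ (99 / 100 : ℝ) := by
              apply mul_le_mul_of_nonneg_right _ (by positivity)
              calc (2 : ℝ) ^ (99 / 100 : ℝ) ≤ (2 : ℝ) ^ (1 : ℝ) :=
                    Real.rpow_le_rpow_of_exponent_le (by norm_num) (by norm_num)
                _ = 2 := Real.rpow_one _
      have h4 : Cb * size θ ≤ Cb * (2 * (X : ℝ) ^ (99 / 100 : ℝ)) :=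
        mul_le_mul_of_nonneg_left (hsize.trans h3) hCb
      have h5 : ((PA.filter (fun p => bad θ p)).card : ℝ) + (PP.card : ℝ) = PA.card := by
        exact_mod_cast h1
      linarith
    have hXT : 4 * (X : ℝ) ^ 2 ≤ T := by
      refine le_trans ?_ hX3
      nlinarith [sq_nonneg (X : ℝ)]
    -- the groups
    have hGc : ∀ p ∈ PP, ∀ hp : Fact p.Prime, ∀ i,
        (Fintype.card (Pt (a i : ZMod p) (b i : ZMod p)) : ℝ) ≤ 2 * X := by
      intro p hp hpf i
      obtain ⟨_, _, hpp, hpX, _⟩ := hPP p hp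
      have h1 := hcard p (hdisc p hpp).2 _ _ ((hdisc p hpp).1 i)
      have h2 : (p : ℝ) ≤ X := by exact_mod_cast hpX
      have h3 : C₂ * √p ≤ X := by
        rw [Real.rpow_zero, mul_one, ← Real.sqrt_eq_rpow] at hXb
        have h4 : √(p : ℝ) ≤ √X := Real.sqrt_le_sqrt h2
        calc C₂ * √p ≤ √X * √X := mul_le_mul hXb h4 (Real.sqrt_nonneg _) (Real.sqrt_nonneg _)
          _ = X := Real.mul_self_sqrt hX0.le
      linarith
    set M : ℕ := ⌊2 * (X : ℝ) ^ (1 / 3 : ℝ)⌋₊ with hM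
    set t : ℕ := ⌊(X : ℝ) ^ (9 / 100 : ℝ)⌋₊ with ht
    have hM1 : 1 ≤ M := by
      apply Nat.le_floor
      have : (1 : ℝ) ≤ (X : ℝ) ^ (1 / 3 : ℝ) := Real.one_le_rpow hX1r (by norm_num)
      push_cast
      linarith
    obtain ⟨_, ht1⟩ := floor_ge (Real.one_le_rpow hX1r (by norm_num : (0 : ℝ) ≤ 9 / 100))
    rw [← ht] at ht1
    set badp : Finset (ℕ × ℕ) := (PP ×ˢ PP).filter (fun z => ∃ (h1 : Fact z.1.Prime)
        (h2 : Fact z.2.Prime), (kset (fun k => @rr z.1 h1 j (e' k))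
          (fun k => @rr z.2 h2 j (e' k))).ncard ≤ t) with hbadp
    have hPPX : (PP.card : ℝ) ≤ X := by
      have h1 : PP ⊆ Finset.Icc 1 X := by
        intro p hp
        obtain ⟨h2, _, _, h3, _⟩ := hPP p hp
        rw [mem_Icc]
        exact ⟨h2.one_lt.le, h3⟩
      have h2 := card_le_card h1
      rw [Nat.card_Icc, Nat.add_sub_cancel] at h2
      exact_mod_cast h2
    have hbadc : (badp.card : ℝ) ≤ C₄ * X * ((X : ℝ) ^ (27 / 100 : ℝ) * (4 * (X : ℝ) ^ (2 / 3 : ℝ))) := by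
      have h1 := hker PP (fun p hp => ⟨(hPP p hp).1⟩) M t hM1 ht1 (by
        intro p hp hpf
        obtain ⟨_, hAd, hpp, hpX, _⟩ := hPP p hp
        refine ⟨hAd, (hdisc p hpp).1 j, ?_⟩
        have h2 := hGc p hp hpf j
        have h3 : 2 * (X : ℝ) ^ (1 / 3 : ℝ) < M + 1 := Nat.lt_floor_add_one _
        have h4 : (2 * (X : ℝ) ^ (1 / 3 : ℝ)) ^ 3 < ((M : ℝ) + 1) ^ 3 :=
          pow_lt_pow_left₀ h3 (by positivity) (by norm_num)
        have h5 : (2 * (X : ℝ) ^ (1 / 3 : ℝ)) ^ 3 = 8 * X := by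
          rw [mul_pow, ← Real.rpow_natCast, ← Real.rpow_natCast, ← Real.rpow_mul hX0.le]
          norm_num
        rw [h5] at h4
        have h6 : (Fintype.card (Pt (a j : ZMod p) (b j : ZMod p)) : ℝ) < ((M + 1 : ℕ) : ℝ) ^ 3 := by
          push_cast
          linarith
        exact_mod_cast h6)
      refine h1.trans ?_
      have h2 : (t : ℝ) ^ 3 ≤ (X : ℝ) ^ (27 / 100 : ℝ) := by
        have h3 : (t : ℝ) ≤ (X : ℝ) ^ (9 / 100 : ℝ) := Nat.floor_le (by positivity)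
        calc (t : ℝ) ^ 3 ≤ ((X : ℝ) ^ (9 / 100 : ℝ)) ^ 3 :=
              pow_le_pow_left₀ (Nat.cast_nonneg _) h3 _
          _ = (X : ℝ) ^ (27 / 100 : ℝ) := by
              rw [← Real.rpow_natCast, ← Real.rpow_mul hX0.le]
              norm_num
      have h3 : (M : ℝ) ^ 2 ≤ 4 * (X : ℝ) ^ (2 / 3 : ℝ) := by
        have h4 : (M : ℝ) ≤ 2 * (X : ℝ) ^ (1 / 3 : ℝ) := Nat.floor_le (by positivity)
        calc (M : ℝ) ^ 2 ≤ (2 * (X : ℝ) ^ (1 / 3 : ℝ)) ^ 2 :=
              pow_le_pow_left₀ (Nat.cast_nonneg _) h4 _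
          _ = 4 * (X : ℝ) ^ (2 / 3 : ℝ) := by
              rw [mul_pow, ← Real.rpow_natCast, ← Real.rpow_natCast, ← Real.rpow_mul hX0.le]
              norm_num
      gcongr
    set δ : ℝ := (√(C₁ + √(264 * C₁)) + 96) * (X : ℝ) ^ (-(47 / 2000) : ℝ) with hδ
    set R : ℝ := (X : ℝ) ^ (33 / 100 : ℝ) / 2 with hRd
    have hR0 : 0 < R := by positivity
    set ε : ℝ := C₁ * 2 ^ r * r / R with hε
    -- the weights
    set g : (Fin r → ℕ) → ℕ → (Fin 3 → ℕ) → ℝ := fun n p m =>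
      if hp : p.Prime then @G θ p ⟨hp⟩ (fun i => @rr p ⟨hp⟩ i (τ i) +
        n i • @rr p ⟨hp⟩ i (e i)) (@rr p ⟨hp⟩ j (τ j) +
          ∑ k, m k • @rr p ⟨hp⟩ j (e' k)) else 0 with hg
    set Gd : (Fin r → ℕ) → ℕ → Prop := fun n p => ∃ hp : Fact p.Prime,
      GoodZ a b j p (Z θ p) (fun i => rr p i (τ i) + n i • rr p i (e i)) with hGd
    have hsec := sec_moment_c (Nx j T) (Bx T) PP g (by
      intro n p m
      rw [hg]
      simp only
      split_ifs with hp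
      · haveI : Fact p.Prime := ⟨hp⟩
        exact hG1 θ p _ _
      · simp) Gd badp (C₄ * X * ((X : ℝ) ^ (27 / 100 : ℝ) * (4 * (X : ℝ) ^ (2 / 3 : ℝ)))) δ ε
      (by positivity) (by positivity) hbadc (by
      -- correlations
      intro n _ p hp p' hp' hG hG' hnb
      obtain ⟨hpf, hGp⟩ := hG
      obtain ⟨hpf', hGp'⟩ := hG'
      haveI := hpf
      haveI := hpf'
      obtain ⟨_, hlp, hpp, hpX, hsz⟩ := hPP p hp
      obtain ⟨_, hlp', hpp', hpX', hsz'⟩ := hPP p' hp'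
      obtain ⟨Bd, hBd, hcor⟩ := (hloc θ p hpp hlp (hPPb p hp)).2 _ hGp
      have hpr : (p : ℝ) ≤ X := by exact_mod_cast hpX
      have hc1 := hGc p hp hpf j
      have hc2 := hGc p' hp' hpf' j
      have hcc : ((Fintype.card (Pt (a j : ZMod p) (b j : ZMod p)) *
          Fintype.card (Pt (a j : ZMod p') (b j : ZMod p')) : ℕ) : ℝ) ≤ 4 * (X : ℝ) ^ 2 := by
        push_cast
        calc (Fintype.card (Pt (a j : ZMod p) (b j : ZMod p)) : ℝ) *
            Fintype.card (Pt (a j : ZMod p') (b j : ZMod p')) ≤ (2 * X) * (2 * X) :=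
              mul_le_mul hc1 hc2 (Nat.cast_nonneg _) (by positivity)
          _ = 4 * (X : ℝ) ^ 2 := by ring
      have hpb := pair_bound3 (ρ := 3) (T := T) (by
        have h1 := hcc.trans hXT
        exact_mod_cast h1) (fun k => rr p j (e' k)) (fun k => rr p' j (e' k))
        (rr p j (τ j)) (rr p' j (τ j))
        (G θ p (fun i => rr p i (τ i) + n i • rr p i (e i)))
        (G θ p' (fun i => rr p' i (τ i) + n i • rr p' i (e i)))
        (hG1 θ p _) (hG1 θ p' _) Bd C₁ hBd (C₁ * √p) (by positivity) hcor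
      have heq : ∀ m ∈ Bx T, g n p m * g n p' m =
          G θ p (fun i => rr p i (τ i) + n i • rr p i (e i))
            (rr p j (τ j) + ∑ k, m k • rr p j (e' k)) *
          G θ p' (fun i => rr p' i (τ i) + n i • rr p' i (e i))
            (rr p' j (τ j) + ∑ k, m k • rr p' j (e' k)) := by
        intro m _
        rw [hg]
        simp only
        rw [dif_pos hpf.out, dif_pos hpf'.out]
      rw [sum_congr rfl heq]
      have hpb' := hpb
      refine le_trans hpb ?_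
      rw [Bx_card, mul_comm δ]
      refine mul_le_mul_of_nonneg_left ?_ (by positivity)
      -- numerical part
      have hk : (X : ℝ) ^ (9 / 100 : ℝ) ≤ ((kset (fun k => rr p j (e' k))
          (fun k => rr p' j (e' k))).ncard : ℝ) := by
        have h1 : t < (kset (fun k => rr p j (e' k))
          (fun k => rr p' j (e' k))).ncard := by
          by_contra hc
          apply hnb
          rw [hbadp, mem_filter, mem_product]
          exact ⟨⟨hp, hp'⟩, hpf, hpf', not_lt.1 hc⟩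
        have h2 : (X : ℝ) ^ (9 / 100 : ℝ) < t + 1 := Nat.lt_floor_add_one _
        have h3 : ((t + 1 : ℕ) : ℝ) ≤ ((kset (fun k => rr p j (e' k))
          (fun k => rr p' j (e' k))).ncard : ℝ) := by exact_mod_cast h1
        push_cast at h3
        linarith
      have hΓ := (hsz hpf).2
      set Γ : ℝ := ((gset (fun k => rr p j (e' k))).ncard : ℝ) with hΓdef
      have hΓ0 : 0 < Γ := lt_of_lt_of_le (by positivity) hΓ
      have h1 : C₁ / ((kset (fun k => rr p j (e' k))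
          (fun k => rr p' j (e' k))).ncard : ℝ) ≤ C₁ * (X : ℝ) ^ (-(47 / 1000) : ℝ) := by
        have h2 : (X : ℝ) ^ (-(47 / 1000) : ℝ) = ((X : ℝ) ^ (47 / 1000 : ℝ))⁻¹ :=
          Real.rpow_neg hX0.le _
        rw [h2, ← div_eq_mul_inv]
        apply div_le_div₀ hC₁ le_rfl (by positivity)
        refine le_trans ?_ hk
        exact Real.rpow_le_rpow_of_exponent_le hX1r (by norm_num)
      have h2 : √(2 * C₁ * Fintype.card (Pt (a j : ZMod p) (b j : ZMod p)) + Γ * (C₁ * √p)) / Γ ≤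
          √(264 * C₁) * (X : ℝ) ^ (-(47 / 1000) : ℝ) := by
        refine le_trans ?_ (est_sqrt C₁ X Γ hC₁ hX1r hΓ)
        apply div_le_div_of_nonneg_right _ hΓ0.le
        apply Real.sqrt_le_sqrt
        refine add_le_add ?_ ?_
        · calc 2 * C₁ * Fintype.card (Pt (a j : ZMod p) (b j : ZMod p)) ≤
              2 * C₁ * (2 * X) := by gcongr
            _ = 4 * C₁ * X := by ring
        · gcongr
      have h3 : √(C₁ / ((kset (fun k => rr p j (e' k))
          (fun k => rr p' j (e' k))).ncard : ℝ) +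
          √(2 * C₁ * Fintype.card (Pt (a j : ZMod p) (b j : ZMod p)) + Γ * (C₁ * √p)) / Γ) ≤
          √(C₁ + √(264 * C₁)) * (X : ℝ) ^ (-(47 / 2000) : ℝ) := by
        have h4 := add_le_add h1 h2
        rw [← add_mul] at h4
        refine (Real.sqrt_le_sqrt h4).trans (le_of_eq ?_)
        rw [Real.sqrt_mul' _ (by positivity)]
        congr 1
        rw [Real.sqrt_eq_rpow, ← Real.rpow_mul hX0.le]
        norm_num
      have h4 : ((3 : ℕ) : ℝ) * 2 ^ 3 * (((Fintype.card (Pt (a j : ZMod p) (b j : ZMod p)) *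
          Fintype.card (Pt (a j : ZMod p') (b j : ZMod p')) : ℕ) : ℝ) / T) ≤
          96 * (X : ℝ) ^ (-(47 / 2000) : ℝ) := by
        have h5 : (((Fintype.card (Pt (a j : ZMod p) (b j : ZMod p)) *
          Fintype.card (Pt (a j : ZMod p') (b j : ZMod p')) : ℕ) : ℝ) / T) ≤
            4 * (X : ℝ) ^ 2 / (X : ℝ) ^ 3 := by
          apply div_le_div₀ (by positivity) hcc (by positivity) hX3
        have h6 : 4 * (X : ℝ) ^ 2 / (X : ℝ) ^ 3 = 4 * (X : ℝ) ^ (-1 : ℝ) := by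
          rw [Real.rpow_neg_one]
          field_simp
        have h7 : (X : ℝ) ^ (-1 : ℝ) ≤ (X : ℝ) ^ (-(47 / 2000) : ℝ) :=
          Real.rpow_le_rpow_of_exponent_le hX1r (by norm_num)
        rw [h6] at h5
        push_cast at h5 ⊢
        linarith
      rw [hδ, add_mul]
      exact add_le_add h3 h4) (by
      -- good parameters
      intro p hp
      obtain ⟨hpr, hlp, hpp, hpX, hsz⟩ := hPP p hp
      haveI hpf : Fact p.Prime := ⟨hpr⟩
      obtain ⟨hsz1, _⟩ := hloc θ p hpp hlp (hPPb p hp)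
      have h1 := not_good_cardZ a b j C₁ hC₁ p (Z θ p) hsz1 (fun i => rr p i (τ i))
        (fun i => rr p i (e i)) T R hR0 (by
          intro i
          have h2 := hGc p hp hpf i
          have h3 : 2 * (X : ℝ) ≤ 4 * (X : ℝ) ^ 2 := by nlinarith
          have h4 := h2.trans (h3.trans hXT)
          exact_mod_cast h4) (fun i hi => (hsz hpf).1 i hi) (by
          have h2 := (hsz hpf).2
          have h3 : ((gset (fun k => rr p j (e' k))).ncard : ℝ) ≤
              Fintype.card (Pt (a j : ZMod p) (b j : ZMod p)) := by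
            have h4 : (gset (fun k => rr p j (e' k))).ncard ≤
                Fintype.card (Pt (a j : ZMod p) (b j : ZMod p)) := by
              rw [← Nat.card_eq_fintype_card]
              exact Set.ncard_le_card _
            exact_mod_cast h4
          refine le_trans ?_ (h2.trans h3)
          rw [hRd]
          linarith)
      rw [Nx_card]
      refine le_trans ?_ h1
      have h2 : (Nx j T).filter (fun n => ¬ Gd n p) ⊆
          (Fintype.piFinset (fun i => range (if i = j then 1 else T))).filter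
          (fun n => ¬ GoodZ a b j p (Z θ p) (fun i => rr p i (τ i) +
            n i • rr p i (e i))) := by
        intro n hn
        rw [mem_filter] at hn ⊢
        refine ⟨hn.1, fun hc => hn.2 ⟨hpf, hc⟩⟩
      have h3 := card_le_card h2
      refine Nat.cast_le.2 (le_trans (le_of_eq ?_) (le_trans h3 (le_of_eq ?_))) <;> congr!)
      (fun n => (Bx T).filter (fun m => Lift θ (ptg Gp j e e' τ n m))) (fun n _ => filter_subset _ _)
      c₀ hc₀ (by
      intro n _ m hm p hp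
      rw [mem_filter] at hm
      obtain ⟨_, hw⟩ := hm
      obtain ⟨hpr, hlp, hpp, hpX, hsz⟩ := hPP p hp
      haveI hpf : Fact p.Prime := ⟨hpr⟩
      have hq := hlift θ p hpp hlp (hPPb p hp) (ptg Gp j e e' τ n m) hw
      have h1 : G θ p (fun i => rr p i (ptg Gp j e e' τ n m i)) =
          G θ p (fun i => rr p i (τ i) + n i • rr p i (e i)) := by
        apply hGcg
        intro i hi
        simp only [ptg]
        rw [Function.update_of_ne hi, map_add, map_nsmul]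
      have h2 : rr p j (ptg Gp j e e' τ n m j) =
          rr p j (τ j) + ∑ k, m k • rr p j (e' k) := by
        simp only [ptg]
        rw [Function.update_self, map_add, map_sum]
        congr 1
        exact sum_congr rfl fun k _ => map_nsmul _ _ _
      rw [h1, h2] at hq
      rw [hg]
      simp only
      rw [dif_pos hpr]
      exact hq) (by
      have h1 : (0 : ℝ) < PP.card := lt_of_lt_of_le (by positivity) hPPc
      exact_mod_cast h1)
    refine hsec.trans ?_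
    rw [Nx_card, Bx_card]
    -- final numerics
    have hmain : 2 * ε + κ₀ * (4 * (C₄ * X * ((X : ℝ) ^ (27 / 100 : ℝ) * (4 * (X : ℝ) ^ (2 / 3 : ℝ)))) /
        (PP.card : ℝ) ^ 2 + δ) ≤ C₅ * (X : ℝ) ^ (-(47 / 2000) : ℝ) := by
      have h1 : 2 * ε ≤ 4 * (C₁ * 2 ^ r * r) * (X : ℝ) ^ (-(47 / 2000) : ℝ) := by
        have h2 : 2 * ε = 4 * (C₁ * 2 ^ r * r) * (X : ℝ) ^ (-(33 / 100) : ℝ) := by
          rw [hε, hRd, Real.rpow_neg hX0.le]
          field_simp
          ring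
        rw [h2]
        refine mul_le_mul_of_nonneg_left ?_ (by positivity)
        exact Real.rpow_le_rpow_of_exponent_le hX1r (by norm_num)
      have h2 : 4 * (C₄ * X * ((X : ℝ) ^ (27 / 100 : ℝ) * (4 * (X : ℝ) ^ (2 / 3 : ℝ)))) /
        (PP.card : ℝ) ^ 2 ≤ 16 * C₄ * (X : ℝ) ^ (-(47 / 2000) : ℝ) := by
        have h3 : ((X : ℝ) ^ (994 / 1000 : ℝ)) ^ 2 ≤ (PP.card : ℝ) ^ 2 :=
          pow_le_pow_left₀ (by positivity) hPPc 2
        have h4 : ((X : ℝ) ^ (994 / 1000 : ℝ)) ^ 2 = (X : ℝ) ^ (497 / 250 : ℝ) := by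
          rw [← Real.rpow_natCast, ← Real.rpow_mul hX0.le]
          norm_num
        rw [h4] at h3
        have h5 : 4 * (C₄ * X * ((X : ℝ) ^ (27 / 100 : ℝ) * (4 * (X : ℝ) ^ (2 / 3 : ℝ)))) =
            16 * C₄ * (X : ℝ) ^ (581 / 300 : ℝ) := by
          have h6 : (X : ℝ) ^ (581 / 300 : ℝ) =
              X * ((X : ℝ) ^ (27 / 100 : ℝ) * (X : ℝ) ^ (2 / 3 : ℝ)) := by
            rw [← Real.rpow_add hX0]
            nth_rewrite 2 [← Real.rpow_one (X : ℝ)]
            rw [← Real.rpow_add hX0]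
            norm_num
          rw [h6]
          ring
        rw [h5]
        calc 16 * C₄ * (X : ℝ) ^ (581 / 300 : ℝ) / (PP.card : ℝ) ^ 2 ≤
            16 * C₄ * (X : ℝ) ^ (581 / 300 : ℝ) / (X : ℝ) ^ (497 / 250 : ℝ) :=
              div_le_div_of_nonneg_left (by positivity) (by positivity) h3
          _ = 16 * C₄ * (X : ℝ) ^ (-(77 / 1500) : ℝ) := by
              rw [mul_div_assoc]
              congr 1
              rw [div_eq_iff (by positivity), ← Real.rpow_add hX0]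
              norm_num
          _ ≤ 16 * C₄ * (X : ℝ) ^ (-(47 / 2000) : ℝ) := by
              refine mul_le_mul_of_nonneg_left ?_ (by positivity)
              exact Real.rpow_le_rpow_of_exponent_le hX1r (by norm_num)
      have h3 : κ₀ * (4 * (C₄ * X * ((X : ℝ) ^ (27 / 100 : ℝ) * (4 * (X : ℝ) ^ (2 / 3 : ℝ)))) /
        (PP.card : ℝ) ^ 2 + δ) ≤ κ₀ * (16 * C₄ * (X : ℝ) ^ (-(47 / 2000) : ℝ) +
          (√(C₁ + √(264 * C₁)) + 96) * (X : ℝ) ^ (-(47 / 2000) : ℝ)) := by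
        apply mul_le_mul_of_nonneg_left _ hκ₀0
        rw [hδ]
        linarith
      have h4 : C₅ * (X : ℝ) ^ (-(47 / 2000) : ℝ) = 4 * (C₁ * 2 ^ r * r) * (X : ℝ) ^ (-(47 / 2000) : ℝ) +
          κ₀ * (16 * C₄ * (X : ℝ) ^ (-(47 / 2000) : ℝ) +
          (√(C₁ + √(264 * C₁)) + 96) * (X : ℝ) ^ (-(47 / 2000) : ℝ)) := by
        rw [hC₅]; ring
      rw [h4]
      linarith
    have hXT' : (X : ℝ) ^ (-(47 / 2000) : ℝ) ≤ 2 * (T : ℝ) ^ (-(1 / 150) : ℝ) := by
      have h1 : (X : ℝ) ^ (-(47 / 2000) : ℝ) ≤ ((T : ℝ) ^ (1 / 3 : ℝ) / 2) ^ (-(47 / 2000) : ℝ) :=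
        Real.rpow_le_rpow_of_nonpos (by positivity) hXl (by norm_num)
      refine h1.trans ?_
      rw [div_eq_mul_inv, Real.mul_rpow (by positivity) (by positivity), ← Real.rpow_mul hT0.le,
        mul_comm]
      refine mul_le_mul ?_ ?_ (by positivity) (by norm_num)
      · rw [← Real.rpow_neg_one, ← Real.rpow_mul (by norm_num)]
        calc (2 : ℝ) ^ ((-1 : ℝ) * -(47 / 2000)) ≤ (2 : ℝ) ^ (1 : ℝ) :=
              Real.rpow_le_rpow_of_exponent_le (by norm_num) (by norm_num)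
          _ = 2 := Real.rpow_one _
      · exact Real.rpow_le_rpow_of_exponent_le hTr (by norm_num)
    have hfin := hmain.trans (mul_le_mul_of_nonneg_left hXT' hC₅0)
    calc (T : ℝ) ^ (r - 1) * (T : ℝ) ^ 3 * (2 * ε + κ₀ * (4 * (C₄ * X * ((X : ℝ) ^ (27 / 100 : ℝ) *
          (4 * (X : ℝ) ^ (2 / 3 : ℝ)))) / (PP.card : ℝ) ^ 2 + δ)) ≤
        (T : ℝ) ^ (r - 1) * (T : ℝ) ^ 3 * (C₅ * (2 * (T : ℝ) ^ (-(1 / 150) : ℝ))) :=
          mul_le_mul_of_nonneg_left hfin (by positivity)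
      _ = (2 * C₅) * ((T : ℝ) ^ (r - 1) * (T : ℝ) ^ 3 * (T : ℝ) ^ (-(1 / 150) : ℝ)) := by ring
      _ ≤ _ := mul_le_mul_of_nonneg_right (le_max_left _ _) (by positivity)

end Pool.Agent.K9h5.Q
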