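import Mathlib
import Pool.Agent.K9h5.N.Rdk

/-!
# Few bad primes of a parameter
-/

set_option autoImplicit false
set_option linter.all false

namespace Pool.Agent.K9h5.Q

open Pool.Agent.H901R3.MS WeierstrassCurve Height Pool.Agent.K9h5 Pool.Agent.K9h5.N NumberField

/-- heights of polynomial values -/
theorem ht_poly (K : Type) [Field K] [NumberField K] {s : ℕ} (bb : MvPolynomial (Fin s) ℤ) :
    ∃ C : ℝ, 0 ≤ C ∧ ∀ (t : Fin s → K) (B : ℝ), 1 ≤ B → (∀ i, logHeight₁ (t i) ≤ B) →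
      logHeight₁ (MvPolynomial.aeval t bb) ≤ C * B := by
  induction bb using MvPolynomial.induction_on with
  | C c =>
    refine ⟨logHeight₁ (c : K), zero_le_logHeight₁ _, ?_⟩
    intro t B hB ht
    have h1 : MvPolynomial.aeval t (MvPolynomial.C c : MvPolynomial (Fin s) ℤ) = (c : K) := by
      rw [MvPolynomial.aeval_C]
      rfl
    rw [h1]
    exact le_mul_of_one_le_right (zero_le_logHeight₁ _) hB
  | add p q hp hq =>
    obtain ⟨Cp, hCp, hp⟩ := hp
    obtain ⟨Cq, hCq, hq⟩ := hq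
    refine ⟨|(totalWeight K : ℝ) * Real.log 2| + Cp + Cq, by positivity, ?_⟩
    intro t B hB ht
    rw [map_add]
    have h1 := logHeight₁_add_le (MvPolynomial.aeval t p) (MvPolynomial.aeval t q)
    have h2 := hp t B hB ht
    have h3 := hq t B hB ht
    have h4 : (totalWeight K : ℝ) * Real.log 2 ≤ |(totalWeight K : ℝ) * Real.log 2| * B :=
      (le_abs_self _).trans (le_mul_of_one_le_right (abs_nonneg _) hB)
    rw [add_mul, add_mul]
    linarith
  | mul_X p i hp =>
    obtain ⟨Cp, hCp, hp⟩ := hp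
    refine ⟨Cp + 1, by positivity, ?_⟩
    intro t B hB ht
    rw [map_mul, MvPolynomial.aeval_X]
    have h1 := logHeight₁_mul_le (MvPolynomial.aeval t p) (t i)
    have h2 := hp t B hB ht
    have h3 := ht i
    rw [add_mul, one_mul]
    linarith

/-- few primes are in the denominator of an element -/
theorem few_den (K : Type) [Field K] [NumberField K] (x : K) (S : Finset ℕ)
    (hS : ∀ p ∈ S, ∃ (_ : Fact p.Prime) (h : AdmK K p), x ∉ (vK K p h).A) :
    (S.card : ℝ) * Real.log 2 ≤ logHeight₁ x := by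
  obtain ⟨n, hn0, hnle, hint⟩ := exists_nat_le_mulHeight₁ x
  have hn1 : 0 < n := Nat.pos_of_ne_zero hn0
  have h1 : ∀ p ∈ S, p.Prime ∧ p ∣ n := by
    intro p hp
    obtain ⟨hpf, hA, hx⟩ := hS p hp
    refine ⟨hpf.out, ?_⟩
    by_contra hc
    apply hx
    have hnp : ((n : ℕ) : ZMod p) ≠ 0 := by
      rw [Ne, ZMod.natCast_eq_zero_iff]
      exact hc
    obtain ⟨z, hz⟩ : ∃ z : 𝓞 K, (z : K) = n * x := ⟨⟨n * x, hint⟩, rfl⟩
    have h2 := (vK_spec K p hA z).1
    have h3 : ((n : ℕ) : K)⁻¹ ∈ (vK K p hA).A := by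
      apply (vK K p hA).inv_mem
      rw [(vK K p hA).r_nat]
      exact hnp
    have h4 : x = ((n : ℕ) : K)⁻¹ * z := by
      rw [hz, ← mul_assoc, inv_mul_cancel₀, one_mul]
      exact_mod_cast hn0
    rw [h4]
    exact (vK K p hA).A.mul_mem h3 h2
  have h2 := card_primes_dvd n hn1 S h1
  refine h2.trans ?_
  unfold logHeight₁
  apply Real.log_le_log (by exact_mod_cast hn1)
  exact hnle

/-- the values of polynomials at a place -/
theorem aeval_place {K k : Type} [Field K] [Field k] (v : Place K k) {s : ℕ}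
    (bb : MvPolynomial (Fin s) ℤ) (t : Fin s → K) (ht : ∀ i, t i ∈ v.A) :
    MvPolynomial.aeval t bb ∈ v.A ∧
      v.r (MvPolynomial.aeval t bb) = MvPolynomial.aeval (fun i => v.r (t i)) bb := by
  set t' : Fin s → v.A := fun i => ⟨t i, ht i⟩ with ht'
  have hmap : ∀ (S : Type) [CommRing S] (φ : v.A →+* S),
      φ (MvPolynomial.aeval t' bb) = MvPolynomial.aeval (fun i => φ (t' i)) bb := by
    intro S _ φ
    rw [MvPolynomial.aeval_def, MvPolynomial.aeval_def, MvPolynomial.hom_eval₂]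
    congr 1
    exact RingHom.ext_int _ _
  have h1 : MvPolynomial.aeval t bb = v.A.subtype (MvPolynomial.aeval t' bb) := by
    rw [hmap]
    rfl
  have h2 : MvPolynomial.aeval t bb ∈ v.A := by
    rw [h1]
    exact (MvPolynomial.aeval t' bb).2
  refine ⟨h2, ?_⟩
  rw [v.r_of h2]
  have h3 : (⟨MvPolynomial.aeval t bb, h2⟩ : v.A) = MvPolynomial.aeval t' bb := Subtype.ext h1
  rw [h3, hmap]
  congr 1
  congr 1
  funext i
  rw [v.r_of (ht i)]

open Classical in
/-- few primes are bad for a parameter -/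
theorem bad_params (K : Type) [Field K] [NumberField K] {s : ℕ} (bb : MvPolynomial (Fin s) ℤ) :
    ∃ C : ℝ, 0 ≤ C ∧ ∀ (t : Fin s → K) (B : ℝ), 1 ≤ B → (∀ i, logHeight₁ (t i) ≤ B) →
      MvPolynomial.aeval t bb ≠ 0 → ∀ S : Finset ℕ,
      (∀ p ∈ S, ∃ (_ : Fact p.Prime) (h : AdmK K p), ¬ ((∀ i, t i ∈ (vK K p h).A) ∧
        MvPolynomial.aeval (fun i => (vK K p h).r (t i)) bb ≠ 0)) → (S.card : ℝ) ≤ C * B := by
  obtain ⟨C₀, hC₀, hpoly⟩ := ht_poly K bb
  have hlog : 0 < Real.log 2 := Real.log_pos (by norm_num)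
  refine ⟨((s : ℝ) + C₀) / Real.log 2, by positivity, ?_⟩
  intro t B hB ht hne S hS
  obtain ⟨z, hz⟩ : ∃ z : K, z = MvPolynomial.aeval t bb := ⟨_, rfl⟩
  rw [← hz] at hne
  set Si : Fin s → Finset ℕ := fun i => S.filter (fun p => ∃ (_ : Fact p.Prime) (h : AdmK K p),
    t i ∉ (vK K p h).A) with hSi
  set Sz : Finset ℕ := S.filter (fun p => ∃ (_ : Fact p.Prime) (h : AdmK K p),
    z⁻¹ ∉ (vK K p h).A) with hSz
  have hsub : S ⊆ Finset.univ.biUnion Si ∪ Sz := by
    intro p hp
    obtain ⟨hpf, hA, hbad⟩ := hS p hp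
    rw [Finset.mem_union, Finset.mem_biUnion]
    by_cases hint : ∀ i, t i ∈ (vK K p hA).A
    · right
      rw [hSz, Finset.mem_filter]
      refine ⟨hp, hpf, hA, ?_⟩
      intro hzi
      apply hbad
      refine ⟨hint, ?_⟩
      obtain ⟨h1, h2⟩ := aeval_place (vK K p hA) bb t hint
      rw [← hz] at h1 h2
      rw [← h2]
      intro h0
      have h3 := (vK K p hA).r_mul h1 hzi
      rw [h0, zero_mul, mul_inv_cancel₀ hne] at h3
      have h4 := (vK K p hA).r_nat 1
      rw [Nat.cast_one, h3, Nat.cast_one] at h4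
      exact one_ne_zero h4.symm
    · left
      push Not at hint
      obtain ⟨i, hi⟩ := hint
      refine ⟨i, Finset.mem_univ i, ?_⟩
      rw [hSi, Finset.mem_filter]
      exact ⟨hp, hpf, hA, hi⟩
  have h1 : ∀ i, ((Si i).card : ℝ) * Real.log 2 ≤ B := by
    intro i
    refine (few_den K (t i) (Si i) ?_).trans (ht i)
    intro p hp
    rw [hSi, Finset.mem_filter] at hp
    exact hp.2
  have h2 : (Sz.card : ℝ) * Real.log 2 ≤ C₀ * B := by
    refine (few_den K z⁻¹ Sz ?_).trans ?_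
    · intro p hp
      rw [hSz, Finset.mem_filter] at hp
      exact hp.2
    · rw [logHeight₁_inv, hz]
      exact hpoly t B hB ht
  have h3 : (S.card : ℝ) ≤ ∑ i, ((Si i).card : ℝ) + Sz.card := by
    have h4 := (Finset.card_le_card hsub).trans ((Finset.card_union_le _ _).trans
      (Nat.add_le_add_right Finset.card_biUnion_le _))
    exact_mod_cast h4
  have h5 : (S.card : ℝ) * Real.log 2 ≤ ((s : ℝ) + C₀) * B := by
    calc (S.card : ℝ) * Real.log 2 ≤ (∑ i, ((Si i).card : ℝ) + Sz.card) * Real.log 2 :=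
          mul_le_mul_of_nonneg_right h3 hlog.le
      _ = ∑ i, ((Si i).card : ℝ) * Real.log 2 + Sz.card * Real.log 2 := by
          rw [add_mul, Finset.sum_mul]
      _ ≤ ∑ _i : Fin s, B + C₀ * B := add_le_add (Finset.sum_le_sum fun i _ => h1 i) h2
      _ = ((s : ℝ) + C₀) * B := by
          rw [Finset.sum_const, Finset.card_univ, Fintype.card_fin, nsmul_eq_mul]
          ring
  rw [div_mul_eq_mul_div, le_div_iff₀ hlog]
  exact h5

end Pool.Agent.K9h5.Q
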