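import Mathlib
import Pool.Agent.K9h5.T.Locn
import Pool.Agent.K9h5.U.Cor
import Pool.Agent.K9h5.Q.Ram

/-!
# The local theorem with arbitrary parameters
-/

set_option autoImplicit false
set_option linter.all false

namespace Pool.Agent.K9h5.Q

open Polynomial Pool.Agent.H901R3.MS WeierstrassCurve Finset Pool.Agent.K9h5 Pool.Agent.K9h5.T
  Pool.Agent.K9h5.U

/-- **The local theorem.** -/
theorem local_Q {r n : ℕ} (hn : 2 ≤ n) (a b : ℤ) (hD : Disc (a : ℚ) (b : ℚ))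
    (F : Fin n → MvPolynomial (Fin r × Fin 3) ℤ) (j : Fin r) {d : ℕ}
    (hF : ∀ k, (F k).IsWeightedHomogeneous (wtj j) (((k : ℕ) + 1) * d))
    (V : Fin r → Fin 3 → ℂ) (W : Fin 3 → PowerSeries ℂ) (m : ℕ)
    (hW0 : W ≠ 0) (hWE : W 1 ^ 2 * W 2 = W 0 ^ 3 + (a : PowerSeries ℂ) * W 0 * W 2 ^ 2 +
      (b : PowerSeries ℂ) * W 2 ^ 3)
    (hord : (evF (DFm F) (fun i k => if i = j then W k else PowerSeries.C (V i k))).order = m)
    (hm : Odd m)
    (hFull : Full1 (a : ℂ) (b : ℂ) (fun k => evF (F k) (gen j (a : ℂ) (b : ℂ) V))) :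
    ∃ (bp : MvPolynomial (Fin r × Fin 3) ℤ) (V₀ : Fin r → Fin 3 → ℂ) (C : ℝ) (p₀ : ℕ), 0 ≤ C ∧
      evF bp V₀ ≠ 0 ∧ (V₀ j 2 = 1 ∧ V₀ j 1 ^ 2 = V₀ j 0 ^ 3 + a * V₀ j 0 + b) ∧
      (∀ i, i ≠ j → V₀ i = V i) ∧ ∀ (p : ℕ) [Fact p.Prime],
      p₀ ≤ p → Disc (a : ZMod p) (b : ZMod p) ∧ p ≠ 2 ∧
      (∀ U : Fin r → Fin 3 → ZMod p,
        (∃ c : Pt (a : ZMod p) (b : ZMod p), evF bp (Function.update U j (rep c)) ≠ 0) →
        ∃ Bd : Finset (Pt (a : ZMod p) (b : ZMod p)), 3 / 2 * (Bd.card : ℝ) ≤ C ∧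
          ∀ (σ : Equiv.Perm (Fin n)) h h', h ∉ Bd → h' ∉ Bd → h + h' ∉ Bd → h - h' ∉ Bd →
            |∑ u : Pt (a : ZMod p) (b : ZMod p), gS σ (fun k => specF (F k) j U) u *
              gS σ (fun k => specF (F k) j U) (u + h) *
              gS σ (fun k => specF (F k) j U) (u + h') *
              gS σ (fun k => specF (F k) j U) (u + (h + h'))| ≤ C * √p) := by
  classical
  have hDC : Disc (a : ℂ) (b : ℂ) := by
    have h1 := disc_map (Rat.castHom ℂ) hD
    simpa using h1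
  have hDh : (DFm F).IsWeightedHomogeneous (wtj j) (n * (n - 1) * d) := DFm_homog (wtj j) F hF
  have h2d : 2 ∣ n * (n - 1) * d :=
    Dvd.dvd.mul_right (even_iff_two_dvd.1 (Nat.even_mul_pred_self n)) d
  obtain ⟨V₀, x₀, haff₀, hVV, hN0, hmm⟩ := ram_ptQ a b (DFm F) 2 j hDC hDh h2d V W m hW0 hWE
    hord (by rw [← even_iff_two_dvd, Nat.not_even_iff_odd]; exact hm)
  have hgen : gen j (a : ℂ) (b : ℂ) V = gen j (a : ℂ) (b : ℂ) V₀ := by
    funext i k
    unfold gen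
    by_cases hi : i = j
    · rw [if_pos hi, if_pos hi]
    · rw [if_neg hi, if_neg hi, hVV i hi]
  rw [hgen] at hFull
  have hns : (CV (a : ℂ) (b : ℂ)).toAffine.Nonsingular (V₀ j 0) (V₀ j 1) :=
    (nonsingular_iff hDC).2 haff₀.2
  have hFull' := full_transl0 hDC F j hF V₀ hns hFull
  obtain ⟨bp₁, hbp₁, htr⟩ := transfer (by omega) a b F j V₀ hFull'
  obtain ⟨bp', hbp'0, hbp'⟩ := bpoly (DFm F) j a b 2 (by norm_num) V₀ x₀ hN0 hmm
  set bp : MvPolynomial (Fin r × Fin 3) ℤ := bp' * bp₁ * MvPolynomial.X (j, 2) with hbp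
  have hev : ∀ (S : Type) [CommRing S] (V : Fin r → Fin 3 → S),
      evF bp V = evF bp' V * evF bp₁ V * V j 2 := by
    intro S _ V
    unfold evF
    rw [hbp, MvPolynomial.eval₂_mul, MvPolynomial.eval₂_mul, MvPolynomial.eval₂_X]
  have hbp0 : evF bp V₀ ≠ 0 := by
    rw [hev, haff₀.1, mul_one]
    exact mul_ne_zero hbp'0 hbp₁
  choose Dk hDk using fun k => degQ_spec (F k) j a b
  obtain ⟨D, hD'⟩ := degQ_spec (DFm F) j a b
  obtain ⟨Cc, hCc, hc⟩ := corr_S hn d ((∑ k, Dk k) + D)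
  have hmono : ∀ {S : Type} [CommRing S] {a b : S} (z : QA S a b) (D₁ D₂ : ℕ), D₁ ≤ D₂ →
      degQ z D₁ → degQ z D₂ := fun z D₁ D₂ h h' => ⟨h'.1.trans h, h'.2.trans h⟩
  obtain ⟨q, hq⟩ := disc_mod hD
  refine ⟨bp, V₀, 3 / 2 * Cc, max 3 q, by positivity, hbp0, haff₀, hVV, ?_⟩
  intro p _ hp
  have hp2 : 3 ≤ p := (le_max_left _ _).trans hp
  have hp3 : q ≤ p := (le_max_right _ _).trans hp
  refine ⟨hq p hp3, by omega, ?_⟩
  intro U hG
  obtain ⟨c, hcne⟩ := hG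
  rw [hev] at hcne
  have h1 := left_ne_zero_of_mul (left_ne_zero_of_mul hcne)
  have h1' := right_ne_zero_of_mul (left_ne_zero_of_mul hcne)
  have h2 := right_ne_zero_of_mul hcne
  set V : Fin r → Fin 3 → ZMod p := Function.update U j (rep c) with hV
  have hVj : V j = rep c := by
    rw [hV, Function.update_self]
  have hFm : ∀ F' : MvPolynomial (Fin r × Fin 3) ℤ, specF F' j U = specF F' j V := by
    intro F'
    apply specF_congr
    intro i hi
    rw [hV, Function.update_of_ne hi]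
  rw [hVj] at h2
  cases hcc : c with
  | zero =>
    exfalso
    apply h2
    rw [hcc]
    simp [rep]
  | some x y h =>
    rw [hcc] at hVj
    have hx : V j 0 = x := by rw [hVj]; simp [rep]
    have hy : V j 1 = y := by rw [hVj]; simp [rep]
    have h3 := hbp' (ZMod p) (AlgebraicClosure (ZMod p))
      (algebraMap (ZMod p) (AlgebraicClosure (ZMod p))) V h1
    have h3' := htr (ZMod p) (AlgebraicClosure (ZMod p))
      (algebraMap (ZMod p) (AlgebraicClosure (ZMod p))) V h1'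
    rw [hx, hy, specF_DFm] at h3
    rw [hx, hy] at h3'
    have h4 : ∀ k, (specF (F k) j V).IsHomogeneous (((k : ℕ) + 1) * d) :=
      fun k => specF_homog (F k) j (hF k) _
    have h5 : (DFm (fun k => specF (F k) j V)).IsHomogeneous (n * (n - 1) * d) := by
      rw [← specF_DFm]
      exact specF_homog (DFm F) j hDh _
    obtain ⟨Bd, hBd, hB⟩ := hc p (by omega) a b (hq p hp3)
      (fun k => specF (F k) j V) h4 h5
      (fun k x y => hmono _ _ _ ((single_le_sum (f := Dk) (fun _ _ => Nat.zero_le _)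
        (mem_univ k)).trans (Nat.le_add_right _ _)) (hDk k (ZMod p) _ x y))
      (fun x y => hmono _ _ _ (Nat.le_add_left _ _) (by
        rw [← specF_DFm]
        exact hD' (ZMod p) _ x y)) x y h h3 h3'
    refine ⟨Bd, ?_, ?_⟩
    · exact mul_le_mul_of_nonneg_left hBd (by norm_num)
    · intro σ h h' e1 e2 e3 e4
      simp only [hFm]
      refine (hB σ h h' e1 e2 e3 e4).trans ?_
      apply mul_le_mul_of_nonneg_right _ (Real.sqrt_nonneg _)
      linarith

end Pool.Agent.K9h5.Q
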