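import Mathlib
import Pool.Agent.K9h5.Q.Loc

/-!
# Coordinates with parameters
-/

set_option autoImplicit false
set_option linter.all false

namespace Pool.Agent.K9h5.Q

open Pool.Agent.H901R3.MS WeierstrassCurve Finset Pool.Agent.K9h5 Pool.Agent.K9h5.T
  Pool.Agent.K9h5.U

/-- the variables -/
def rho (r s : ℕ) : Fin s ⊕ (Fin r × Fin 3) → Fin (r + s) × Fin 3
  | Sum.inl i => (Fin.natAdd r i, 0)
  | Sum.inr v => (Fin.castAdd s v.1, v.2)

/-- the tuple of coordinates with parameters `t` -/
def UU {r s : ℕ} {S : Type} [Zero S] (t : Fin s → S) (P : Fin r → Fin 3 → S) :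
    Fin (r + s) → Fin 3 → S :=
  Fin.append P (fun i => ![t i, 0, 0])

theorem UU_cast {r s : ℕ} {S : Type} [Zero S] (t : Fin s → S) (P : Fin r → Fin 3 → S) (i : Fin r) :
    UU t P (Fin.castAdd s i) = P i := Fin.append_left _ _ _

theorem UU_nat {r s : ℕ} {S : Type} [Zero S] (t : Fin s → S) (P : Fin r → Fin 3 → S) (i : Fin s) :
    UU t P (Fin.natAdd r i) = ![t i, 0, 0] := Fin.append_right _ _ _

theorem nat_ne_cast {r s : ℕ} (i : Fin s) (j : Fin r) : Fin.natAdd r i ≠ Fin.castAdd s j := by
  intro h
  have h1 := congrArg Fin.val h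
  simp only [Fin.val_natAdd, Fin.val_castAdd] at h1
  have h2 := j.2
  omega

theorem UU_update {r s : ℕ} {S : Type} [Zero S] (t : Fin s → S) (P : Fin r → Fin 3 → S) (j : Fin r)
    (Q : Fin 3 → S) :
    Function.update (UU t P) (Fin.castAdd s j) Q = UU t (Function.update P j Q) := by
  funext i
  refine Fin.addCases (fun i => ?_) (fun i => ?_) i
  · rw [UU_cast]
    by_cases h : i = j
    · subst h
      rw [Function.update_self, Function.update_self]
    · rw [Function.update_of_ne h, Function.update_of_ne, UU_cast]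
      intro h'
      exact h (Fin.castAdd_injective r s h')
  · rw [Function.update_of_ne (nat_ne_cast i j), UU_nat, UU_nat]

theorem UU_ite {r s : ℕ} {S : Type} [Zero S] (t : Fin s → S) (P : Fin r → Fin 3 → S) (j : Fin r)
    (Q : Fin 3 → S) :
    (fun i k => if i = Fin.castAdd s j then Q k else UU t P i k) =
      UU t (fun i k => if i = j then Q k else P i k) := by
  funext i k
  refine Fin.addCases (fun i => ?_) (fun i => ?_) i
  · rw [UU_cast, UU_cast]
    by_cases h : i = j
    · subst h
      rw [if_pos rfl, if_pos rfl]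
    · rw [if_neg h, if_neg]
      intro h'
      exact h (Fin.castAdd_injective r s h')
  · rw [if_neg (nat_ne_cast i j), UU_nat, UU_nat]

theorem UU_map {r s : ℕ} {S S' : Type} [CommRing S] [CommRing S'] (f : S →+* S') (t : Fin s → S)
    (P : Fin r → Fin 3 → S) :
    (fun i k => f (UU t P i k)) = UU (fun i => f (t i)) (fun i k => f (P i k)) := by
  funext i k
  refine Fin.addCases (fun i => ?_) (fun i => ?_) i
  · rw [UU_cast, UU_cast]
  · rw [UU_nat, UU_nat]
    fin_cases k
    · rfl
    · exact map_zero f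
    · exact map_zero f

theorem evF_rename {r s : ℕ} {S : Type} [CommRing S] (G : MvPolynomial (Fin s ⊕ (Fin r × Fin 3)) ℤ)
    (t : Fin s → S) (P : Fin r → Fin 3 → S) :
    evF (MvPolynomial.rename (rho r s) G) (UU t P) =
      MvPolynomial.aeval (Sum.elim t (fun v => P v.1 v.2)) G := by
  unfold evF
  rw [MvPolynomial.eval₂_rename, MvPolynomial.aeval_def]
  congr 1
  funext x
  rcases x with i | v
  · show UU t P (Fin.natAdd r i) 0 = _
    rw [UU_nat]
    rfl
  · show UU t P (Fin.castAdd s v.1) v.2 = _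
    rw [UU_cast]
    rfl

theorem rename_homog {r s n : ℕ} (j : Fin r) (G : MvPolynomial (Fin s ⊕ (Fin r × Fin 3)) ℤ)
    (hG : G.IsWeightedHomogeneous (Sum.elim (fun _ => 0) (fun v => if v.1 = j then 1 else 0)) n) :
    (MvPolynomial.rename (rho r s) G).IsWeightedHomogeneous (wtj (Fin.castAdd s j)) n := by
  intro e he
  obtain ⟨u, hu, hu0⟩ := MvPolynomial.coeff_rename_ne_zero _ _ _ he
  rw [← hu, ← hG hu0]
  rw [Finsupp.weight_apply, Finsupp.weight_apply, Finsupp.sum_mapDomain_index]
  · refine Finsupp.sum_congr fun x _ => ?_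
    congr 1
    rcases x with i | v
    · show (if Fin.natAdd r i = Fin.castAdd s j then 1 else 0) = 0
      rw [if_neg (nat_ne_cast i j)]
    · show (if Fin.castAdd s v.1 = Fin.castAdd s j then 1 else 0) = if v.1 = j then 1 else 0
      by_cases h : v.1 = j
      · rw [if_pos h, if_pos (by rw [h])]
      · rw [if_neg h, if_neg]
        intro h'
        exact h (Fin.castAdd_injective r s h')
  · intro; simp
  · intro x m₁ m₂; rw [add_smul]

/-- other coordinates which agree -/
theorem UU_off {r s : ℕ} {S : Type} [Zero S] (t : Fin s → S) (P P' : Fin r → Fin 3 → S) (j : Fin r)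
    (h : ∀ i, i ≠ j → P i = P' i) (i : Fin (r + s)) (hi : i ≠ Fin.castAdd s j) :
    UU t P i = UU t P' i := by
  revert hi
  refine Fin.addCases (fun i => ?_) (fun i => ?_) i
  · intro hi
    rw [UU_cast, UU_cast]
    exact h i (fun h' => hi (by rw [h']))
  · intro _
    rw [UU_nat, UU_nat]

end Pool.Agent.K9h5.Q
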