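import Mathlib
import Pool.Agent.K9h5.N.LiftK
import Pool.Agent.K9h5.Q.Uu

/-!
# The local condition in families
-/

set_option autoImplicit false
set_option linter.all false

namespace Pool.Agent.K9h5.Q

open Polynomial Finset Pool.Agent.K9h5 Pool.Agent.K9h5.T Pool.Agent.K9h5.U
  Pool.Agent.H901R3.MS WeierstrassCurve NumberField Pool.Agent.K9h5.N

theorem evF_scaleT {r : ℕ} {K : Type} [Field K] (F : MvPolynomial (Fin r × Fin 3) ℤ) (d : Fin r → ℕ)
    (u : Fin r → K) (V : Fin r → Fin 3 → K) :
    ∀ s : Finset (Fin r), (∀ i ∈ s, F.IsWeightedHomogeneous (wtj i) (d i)) →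
      evF F (fun i k => (if i ∈ s then u i else 1) * V i k) = (∏ i ∈ s, u i ^ d i) * evF F V := by
  classical
  intro s
  induction s using Finset.induction_on with
  | empty => intro _; simp
  | insert i₀ s hi ih =>
    intro hF
    rw [prod_insert hi, mul_assoc, ← ih (fun i h => hF i (mem_insert_of_mem h))]
    have h1 := eval₂_weighted (Int.castRingHom K) (hF i₀ (mem_insert_self _ _)) (u i₀)
      (fun v : Fin r × Fin 3 => (if v.1 ∈ s then u v.1 else 1) * V v.1 v.2)
    unfold evF
    rw [← h1]
    congr 1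
    funext v
    unfold wtj
    simp only
    by_cases hv : v.1 = i₀
    · rw [hv, if_pos (mem_insert_self _ _), if_pos rfl, if_neg hi, pow_one, one_mul]
    · rw [if_neg hv, pow_zero, one_mul]
      by_cases hvs : v.1 ∈ s
      · rw [if_pos (mem_insert_of_mem hvs), if_pos hvs]
      · rw [if_neg hvs, if_neg (by rw [mem_insert, not_or]; exact ⟨hv, hvs⟩)]

theorem evF_scaleU {r s : ℕ} {K : Type} [Field K] (F : MvPolynomial (Fin (r + s) × Fin 3) ℤ)
    (d : Fin r → ℕ) (hF : ∀ i : Fin r, F.IsWeightedHomogeneous (wtj (Fin.castAdd s i)) (d i))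
    (u : Fin r → K) (t : Fin s → K) (P : Fin r → Fin 3 → K) :
    evF F (UU t (fun i k => u i * P i k)) = (∏ i, u i ^ d i) * evF F (UU t P) := by
  classical
  have h1 := evF_scaleT F (Fin.append d (fun _ => 0)) (Fin.append u (fun _ => (1 : K))) (UU t P)
    (univ.image (Fin.castAdd s)) (by
      intro i hi
      obtain ⟨i', _, rfl⟩ := mem_image.1 hi
      rw [Fin.append_left]
      exact hF i')
  rw [prod_image (fun i _ i' _ h => Fin.castAdd_injective r s h)] at h1
  simp only [Fin.append_left] at h1
  rw [← h1]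
  congr 1
  funext i k
  refine Fin.addCases (fun i => ?_) (fun i => ?_) i
  · rw [UU_cast, UU_cast, Fin.append_left, if_pos (mem_image_of_mem _ (mem_univ _))]
  · rw [UU_nat, UU_nat, if_neg, one_mul]
    intro h
    obtain ⟨i', _, h'⟩ := mem_image.1 h
    exact nat_ne_cast i i' h'.symm

/-- **The local condition.** -/
theorem lift_fam (K : Type) [Field K] [NumberField K] [DecidableEq K]
    {r s n : ℕ} (a b : Fin r → ℤ) (F : Fin n → MvPolynomial (Fin (r + s) × Fin 3) ℤ)
    (j : Fin r) (d : Fin r → ℕ)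
    (hF : ∀ k (i : Fin r), (F k).IsWeightedHomogeneous (wtj (Fin.castAdd s i)) (((k : ℕ) + 1) * d i))
    (p : ℕ) [Fact p.Prime] (hA : AdmK K p) (hD : ∀ i, Disc (a i : ZMod p) (b i : ZMod p))
    (t : Fin s → K) (htA : ∀ i, t i ∈ (vK K p hA).A)
    (P : ∀ i, Pt (a i : K) (b i : K)) (σ : Equiv.Perm (Fin n))
    (hσ : ¬ TypeK (pol (fun k => evF (F k) (UU t (fun i => rep (P i))))) σ) :
    fS σ (fun k => specF (F k) (Fin.castAdd s j) (UU (fun i => (vK K p hA).r (t i))
      (fun i => rep (rdK K p (a i) (b i) (P i))))) (rdK K p (a j) (b j) (P j)) = 0 := by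
  classical
  by_contra hne
  apply hσ
  choose u hu0 huA using fun i => (rdK_spec K p hA (a i) (b i) (hD i)).2.2 (P i)
  set q : K := ∏ i, u i ^ d i with hs
  have hs0 : q ≠ 0 := by
    rw [hs]
    exact prod_ne_zero_iff.2 fun i _ => pow_ne_zero _ (hu0 i)
  set c : Fin n → K := fun k => evF (F k) (UU t (fun i => rep (P i))) with hc
  have h1 : ∀ k : Fin n, evF (F k) (UU t (fun i k => u i * rep (P i) k)) =
      q ^ ((k : ℕ) + 1) * c k := by
    intro k
    rw [evF_scaleU (F k) (fun i => ((k : ℕ) + 1) * d i) (hF k) u t (fun i => rep (P i)), hs,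
      ← prod_pow]
    congr 1
    refine prod_congr rfl fun i _ => ?_
    rw [← pow_mul, mul_comm]
  have hUA : ∀ i k, UU t (fun i k => u i * rep (P i) k) i k ∈ (vK K p hA).A ∧
      (vK K p hA).r (UU t (fun i k => u i * rep (P i) k) i k) =
        UU (fun i => (vK K p hA).r (t i)) (fun i => rep (rdK K p (a i) (b i) (P i))) i k := by
    intro i
    refine Fin.addCases (fun i => ?_) (fun i => ?_) i
    · intro k
      rw [UU_cast, UU_cast]
      exact huA i k
    · intro k
      rw [UU_nat, UU_nat]
      have h0 : (0 : K) ∈ (vK K p hA).A ∧ (vK K p hA).r (0 : K) = 0 := by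
        refine ⟨(vK K p hA).A.zero_mem, ?_⟩
        have := (vK K p hA).r_int 0
        simpa using this
      fin_cases k
      · exact ⟨htA i, rfl⟩
      · exact h0
      · exact h0
  have h2 : ∀ k : Fin n, q ^ ((k : ℕ) + 1) * c k ∈ (vK K p hA).A := fun k => by
    rw [← h1]
    exact (evF_place (vK K p hA) (F k) _ (fun i k => (hUA i k).1)).1
  have h3 : ∀ k : Fin n, (vK K p hA).r (q ^ ((k : ℕ) + 1) * c k) =
      Gv (specF (F k) (Fin.castAdd s j) (UU (fun i => (vK K p hA).r (t i))
      (fun i => rep (rdK K p (a i) (b i) (P i))))) (rdK K p (a j) (b j) (P j)) := by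
    intro k
    rw [← h1, (evF_place (vK K p hA) (F k) _ (fun i k => (hUA i k).1)).2]
    unfold Gv
    rw [← MvPolynomial.eval₂_id, specF_eval]
    congr 1
    funext i k
    rw [(hUA i k).2]
    split_ifs with hi
    · rw [hi, UU_cast]
    · rfl
  obtain ⟨D, z, hDp, hz, hzp⟩ := common_denK K p hA _ h2
  have hD0 : algebraMap (𝓞 K) K D ≠ 0 := by
    intro h
    apply hDp
    have h4 : D = 0 := RingOfIntegers.coe_injective (by rw [h, map_zero])
    rw [h4, map_zero]
  -- the integral polynomial
  set g : (𝓞 K)[X] := pol z with hg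
  have hgp : g.map (Classical.choice hA) =
      pol (fun k : Fin n => (Classical.choice hA D) ^ ((k : ℕ) + 1) *
      Gv (specF (F k) (Fin.castAdd s j) (UU (fun i => (vK K p hA).r (t i))
      (fun i => rep (rdK K p (a i) (b i) (P i))))) (rdK K p (a j) (b j) (P j))) := by
    rw [hg, pol_map]
    congr 1
    funext k
    rw [hzp, h3]
  have hnf : U.nf (AlgebraicClosure (ZMod p)) σ (g.map (Classical.choice hA)) ≠ 0 := by
    rw [hgp, nf_scale _ _ _ hDp]
    exact hne
  -- the splitting field
  set G : K[X] := pol c with hG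
  haveI : FiniteDimensional K G.SplittingField :=
    IsSplittingField.finiteDimensional G.SplittingField G
  haveI : CharZero G.SplittingField := charZero_of_injective_algebraMap
    (algebraMap K G.SplittingField).injective
  haveI : NumberField G.SplittingField :=
    { to_charZero := inferInstance,
      to_finiteDimensional := FiniteDimensional.trans ℚ K G.SplittingField }
  haveI : Normal K G.SplittingField := Normal.of_isSplittingField G
  haveI : IsGalois K G.SplittingField := ⟨⟩
  have hsp : (G.map (algebraMap K G.SplittingField)).Splits :=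
    IsSplittingField.splits G.SplittingField G
  obtain ⟨w, hw⟩ : ∃ w : Fin n → G.SplittingField, G.map (algebraMap K G.SplittingField) =
      ∏ j, (X - C (w j)) := by
    have e1 := hsp.eq_prod_roots_of_monic ((pol_monic c).map _)
    have e2 : (G.map (algebraMap K G.SplittingField)).roots.card = n := by
      rw [← hsp.natDegree_eq_card_roots, (pol_monic c).natDegree_map, pol_natDegree]
    obtain ⟨l, hl⟩ := Quot.exists_rep (G.map (algebraMap K G.SplittingField)).roots
    have hl' : l.length = n := by rw [← e2, ← hl]; rfl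
    refine ⟨fun j => l.get (j.cast hl'.symm), ?_⟩
    have e3 : (Multiset.map (fun a => X - C a) (G.map (algebraMap K G.SplittingField)).roots).prod =
        (l.map (fun a => X - C a)).prod := by
      rw [← hl]
      rfl
    rw [e3] at e1
    conv_lhs => rw [e1]
    rw [← List.prod_ofFn]
    congr 1
    apply List.ext_getElem
    · simp [hl']
    · intro i h1 h2
      simp
  set ι := algebraMap K G.SplittingField with hι
  have hDs : ι (algebraMap (𝓞 K) K D * q) ≠ 0 := by
    rw [Ne, map_eq_zero_iff _ ι.injective]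
    exact mul_ne_zero hD0 hs0
  have hgL : g.map (algebraMap (𝓞 K) G.SplittingField) = ∏ j, (X - C (ι (algebraMap (𝓞 K) K D * q) * w j)) := by
    have e1 : pol (fun k => ι (c k)) = ∏ j, (X - C (w j)) := by
      refine Eq.trans ?_ hw
      exact (pol_map _ _).symm
    rw [← scale_split _ _ _ hDs e1, hg, pol_map]
    congr 1
    funext k
    have e2 : algebraMap (𝓞 K) G.SplittingField (z k) = ι (algebraMap (𝓞 K) K (z k)) :=
      IsScalarTower.algebraMap_apply (𝓞 K) K G.SplittingField (z k)
    rw [e2, hz, ← map_pow ι, ← map_mul ι, mul_pow]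
    congr 1
    ring
  obtain ⟨w', τ, hw'i, hw'w, hτ⟩ := frob_liftK K g (pol_monic z) n p (Classical.choice hA) σ hnf
    G.SplittingField _ hgL
  refine ⟨fun j => (ι (algebraMap (𝓞 K) K D * q))⁻¹ * w' j, τ, ?_, ?_, ?_⟩
  · intro j j' h
    exact hw'i (mul_left_cancel₀ (inv_ne_zero hDs) h)
  · intro j
    obtain ⟨k, hk⟩ := hw'w j
    simp only
    rw [hk, ← mul_assoc, inv_mul_cancel₀ hDs, one_mul, aeval_def, ← eval_map]
    refine Eq.trans (congrArg (eval (w k)) hw) ?_
    rw [eval_prod, prod_eq_zero (mem_univ k)]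
    simp
  · intro j
    simp only
    have e1 : τ (ι (algebraMap (𝓞 K) K D * q))⁻¹ = (ι (algebraMap (𝓞 K) K D * q))⁻¹ := by
      rw [map_inv₀]
      congr 1
      exact τ.commutes _
    have e2 : τ (w' j) = w' (σ j) := hτ j
    have e3 : τ ((ι (algebraMap (𝓞 K) K D * q))⁻¹ * w' j) = (ι (algebraMap (𝓞 K) K D * q))⁻¹ * w' (σ j) := by
      rw [map_mul, e1, e2]
    exact e3

end Pool.Agent.K9h5.Q
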