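import Mathlib
import Pool.Agent.K9h5.Q.CoreZ
import Pool.Agent.K9h5.M.Core4

/-!
# The core theorem for families, uniformly in the parameter
-/

set_option autoImplicit false
set_option linter.all false

namespace Pool.Agent.K9h5.Q

open Pool.Agent.H901R3.MS WeierstrassCurve Finset Filter Pool.Agent.K9h5 Pool.Agent.K9h5.T
  Pool.Agent.K9h5.N Pool.Agent.K9h5.M

open Classical in
/-- **The core theorem for families.** -/
theorem core_fam {r : ℕ} (a b : Fin r → ℤ) (Gp : Fin r → Type) [∀ i, AddCommGroup (Gp i)]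
    (hP : ∀ i, Gp i → ℝ) (Adm : ℕ → Prop)
    (rr : ∀ (p : ℕ) [Fact p.Prime] (i : Fin r), Gp i →+ Pt (a i : ZMod p) (b i : ZMod p))
    (hKill : ∀ i, Kill (hP i) Adm (fun p _ => rr p i))
    (hsup : ∃ cP : ℝ, 0 < cP ∧ ∃ TP : ℕ, ∀ X : ℕ, TP ≤ X → cP * (X / Real.log X) ≤
      (((range (X + 1)).filter (fun p => p.Prime ∧ Adm p)).card : ℝ)) (j : Fin r)
    (ι : Type) (size : ι → ℝ) (bad : ι → ℕ → Prop) (Cb : ℝ)
    (hbad : ∀ θ, ∀ S : Finset ℕ, (∀ p ∈ S, p.Prime ∧ Adm p ∧ bad θ p) → (S.card : ℝ) ≤ Cb * size θ)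
    (hCb : 0 ≤ Cb)
    (Lift : ι → (∀ i, Gp i) → Prop)
    (G : ι → ∀ (p : ℕ) [Fact p.Prime], (∀ i, Pt (a i : ZMod p) (b i : ZMod p)) →
      Pt (a j : ZMod p) (b j : ZMod p) → ℝ)
    (hG1 : ∀ θ (p : ℕ) [Fact p.Prime] (P : ∀ i, Pt (a i : ZMod p) (b i : ZMod p))
      (u : Pt (a j : ZMod p) (b j : ZMod p)), |G θ p P u| ≤ 1)
    (hGcg : ∀ θ (p : ℕ) [Fact p.Prime] (P P' : ∀ i, Pt (a i : ZMod p) (b i : ZMod p)),
      (∀ i, i ≠ j → P i = P' i) → G θ p P = G θ p P')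
    (Z : ι → ∀ (p : ℕ) [Fact p.Prime], (∀ i, Pt (a i : ZMod p) (b i : ZMod p)) → Prop)
    (C₁ : ℝ) (p₀ : ℕ) (hC₁ : 0 ≤ C₁)
    (hdisc : ∀ (p : ℕ) [Fact p.Prime], p₀ ≤ p → (∀ i, Disc (a i : ZMod p) (b i : ZMod p)) ∧ p ≠ 2)
    (hloc : ∀ θ (p : ℕ) [Fact p.Prime], p₀ ≤ p → Adm p → ¬ bad θ p →
      (∀ S : ∀ i, Finset (Pt (a i : ZMod p) (b i : ZMod p)),
        (((Fintype.piFinset S).filter (Z θ p)).card : ℝ) ≤ C₁ * bdT a b p S) ∧
      (∀ P : ∀ i, Pt (a i : ZMod p) (b i : ZMod p), GoodZ a b j p (Z θ p) P →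
        ∃ Bd : Finset (Pt (a j : ZMod p) (b j : ZMod p)), 3 / 2 * (Bd.card : ℝ) ≤ C₁ ∧
          ∀ h h', h ∉ Bd → h' ∉ Bd → h + h' ∉ Bd → h - h' ∉ Bd →
            |∑ u : Pt (a j : ZMod p) (b j : ZMod p), G θ p P u * G θ p P (u + h) *
              G θ p P (u + h') * G θ p P (u + (h + h'))| ≤ C₁ * √p))
    (c₀ : ℝ) (hc₀ : 0 < c₀)
    (hlift : ∀ θ (p : ℕ) [Fact p.Prime], p₀ ≤ p → Adm p → ¬ bad θ p → ∀ P, Lift θ P →
      c₀ ≤ G θ p (fun i => rr p i (P i)) (rr p j (P j)))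
    (m : ℕ) (e : ∀ i, Fin m → Gp i) (c : ℝ) (he : ∀ i, HBg (hP i) (e i) c) :
    ∃ C : ℝ, 0 ≤ C ∧ ∀ θ, ∀ T : ℕ, 1 ≤ T → size θ ≤ (T : ℝ) ^ (6 / 10 * (m : ℝ)) → ∀ τ : ∀ i, Gp i,
      (((Fintype.piFinset (fun _ : Fin r => Iz0 m T)).filter
        (fun v => Lift θ (fun i => τ i + lin (e i) (v i)))).card : ℝ) ≤
      C * (((T : ℝ) ^ m) ^ r * (T : ℝ) ^ (2 - 98 / 1000 * (m : ℝ))) := by
  obtain ⟨X₀, hX₀⟩ := primes_big2 Adm hsup p₀
  obtain ⟨C₂, hC₂, hcard⟩ := card_Pt_le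
  have hr1 : 1 ≤ r := by have := j.2; omega
  have hc1 : 1 ≤ c := (he j).1
  have hlog : 0 < Real.log 2 := Real.log_pos (by norm_num)
  -- large X
  have hev := (eventually_ge_atTop (max X₀ 4)).and
    (ev_pow (s := 0) (t := 1 / 2) C₂ (by norm_num))
  rw [eventually_atTop] at hev
  obtain ⟨X₁, hX₁⟩ := hev
  obtain ⟨C₃, hC₃⟩ : ∃ C₃ : ℝ, C₃ = 2 * (r : ℝ) * (1 + 5 ^ m * (4 * c / Real.log 2)) := ⟨_, rfl⟩
  have hC₃0 : 0 ≤ C₃ := by rw [hC₃]; positivity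
  obtain ⟨C₆, hC₆⟩ : ∃ C₆ : ℝ, C₆ = 2 * (2 * C₁ * (r : ℝ) * C₃ + 4 / c₀ ^ 2 *
      (C₃ * √(2 * 3 ^ m * √(6 * C₁)) +
      √(4 * C₁ * 3 ^ m * C₃) * (1 + 3 ^ m * (c / Real.log 2)))) := ⟨_, rfl⟩
  have hC₆0 : 0 ≤ C₆ := by rw [hC₆]; positivity
  obtain ⟨T₀, hT₀⟩ : ∃ T₀ : ℕ, T₀ = X₁ + ⌈Cb⌉₊ + 2 := ⟨_, rfl⟩
  have hT₀1 : (1 : ℝ) ≤ T₀ := by
    have : 1 ≤ T₀ := by omega
    exact_mod_cast this
  refine ⟨max C₆ ((T₀ : ℝ) ^ m), le_max_of_le_left hC₆0, ?_⟩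
  intro θ T hT hsize τ
  have hTr : (1 : ℝ) ≤ T := by exact_mod_cast hT
  have hT0 : (0 : ℝ) < T := by linarith
  have ht0 : (0 : ℝ) < (T : ℝ) ^ m := by positivity
  have htr0 : (0 : ℝ) < ((T : ℝ) ^ m) ^ r := by positivity
  have hTe0 : (0 : ℝ) < (T : ℝ) ^ (2 - 98 / 1000 * (m : ℝ)) := by positivity
  by_cases hTT : T < T₀ ∨ m < 20
  · -- trivial bound
    have h1 : (((Fintype.piFinset (fun _ : Fin r => Iz0 m T)).filter
        (fun v => Lift θ (fun i => τ i + lin (e i) (v i)))).card : ℝ) ≤ ((T : ℝ) ^ m) ^ r := by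
      have h2 := card_filter_le (Fintype.piFinset (fun _ : Fin r => Iz0 m T))
        (fun v => Lift θ (fun i => τ i + lin (e i) (v i)))
      rw [Fintype.card_piFinset, prod_const, card_univ, Fintype.card_fin, Iz0_card] at h2
      exact_mod_cast h2
    have h2 : 1 ≤ (T₀ : ℝ) ^ m * (T : ℝ) ^ (2 - 98 / 1000 * (m : ℝ)) := by
      rcases hTT with hTT | hmm
      · have h3 : (T : ℝ) ^ (-(m : ℝ)) ≤ (T : ℝ) ^ (2 - 98 / 1000 * (m : ℝ)) := by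
          apply Real.rpow_le_rpow_of_exponent_le hTr
          have : (0 : ℝ) ≤ m := Nat.cast_nonneg _
          linarith
        have h4 : (T : ℝ) ^ m ≤ (T₀ : ℝ) ^ m := by
          apply pow_le_pow_left₀ hT0.le
          exact_mod_cast hTT.le
        calc (1 : ℝ) = (T : ℝ) ^ m * (T : ℝ) ^ (-(m : ℝ)) := by
              rw [← Real.rpow_natCast, ← Real.rpow_add hT0, add_neg_cancel, Real.rpow_zero]
          _ ≤ (T₀ : ℝ) ^ m * (T : ℝ) ^ (2 - 98 / 1000 * (m : ℝ)) :=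
              mul_le_mul h4 h3 (by positivity) (by positivity)
      · have h3 : (1 : ℝ) ≤ (T : ℝ) ^ (2 - 98 / 1000 * (m : ℝ)) := by
          apply Real.one_le_rpow hTr
          have : (m : ℝ) ≤ 20 := by exact_mod_cast hmm.le
          linarith
        exact one_le_mul_of_one_le_of_one_le (one_le_pow₀ hT₀1) h3
    calc _ ≤ ((T : ℝ) ^ m) ^ r := h1
      _ ≤ ((T : ℝ) ^ m) ^ r * ((T₀ : ℝ) ^ m * (T : ℝ) ^ (2 - 98 / 1000 * (m : ℝ))) :=
          le_mul_of_one_le_right htr0.le h2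
      _ = (T₀ : ℝ) ^ m * (((T : ℝ) ^ m) ^ r * (T : ℝ) ^ (2 - 98 / 1000 * (m : ℝ))) := by ring
      _ ≤ _ := mul_le_mul_of_nonneg_right (le_max_right _ _) (by positivity)
  · push Not at hTT
    obtain ⟨hTT, hm20⟩ := hTT
    have hT2 : (2 : ℝ) ≤ T := by
      have : 2 ≤ T := by omega
      exact_mod_cast this
    have hTCb : Cb ≤ T := by
      refine (Nat.le_ceil Cb).trans ?_
      have : ⌈Cb⌉₊ ≤ T := by omega
      exact_mod_cast this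
    have hTX : (X₁ : ℝ) ≤ T := by
      have : X₁ ≤ T := by omega
      exact_mod_cast this
    -- the size of X
    have hm20r : (20 : ℝ) ≤ m := by exact_mod_cast hm20
    have ht45 : ((T : ℝ) ^ m) ^ (4 / 5 : ℝ) = (T : ℝ) * (T : ℝ) ^ (4 / 5 * (m : ℝ) - 1) := by
      rw [← Real.rpow_natCast (T : ℝ) m, ← Real.rpow_mul hT0.le]
      nth_rewrite 2 [← Real.rpow_one (T : ℝ)]
      rw [← Real.rpow_add hT0]
      congr 1
      ring
    have hTq : (T : ℝ) ≤ (T : ℝ) ^ (4 / 5 * (m : ℝ) - 1) := by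
      calc (T : ℝ) = (T : ℝ) ^ (1 : ℝ) := (Real.rpow_one _).symm
        _ ≤ (T : ℝ) ^ (4 / 5 * (m : ℝ) - 1) := by
          apply Real.rpow_le_rpow_of_exponent_le hTr
          linarith
    have hs1 : (1 : ℝ) ≤ ((T : ℝ) ^ m) ^ (4 / 5 : ℝ) := by
      rw [ht45]
      exact one_le_mul_of_one_le_of_one_le hTr (hTr.trans hTq)
    obtain ⟨X, hX⟩ : ∃ X : ℕ, X = ⌊((T : ℝ) ^ m) ^ (4 / 5 : ℝ)⌋₊ := ⟨_, rfl⟩
    obtain ⟨hXl, hX1⟩ := floor_ge hs1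
    rw [← hX] at hXl hX1
    have hXu : (X : ℝ) ≤ ((T : ℝ) ^ m) ^ (4 / 5 : ℝ) := by
      rw [hX]; exact Nat.floor_le (by positivity)
    have hX4' : (T : ℝ) ^ (4 / 5 * (m : ℝ) - 1) ≤ X := by
      refine le_trans ?_ hXl
      rw [le_div_iff₀ (by norm_num), ht45, mul_comm]
      exact mul_le_mul_of_nonneg_right hT2 (by positivity)
    have hTX4 : (T : ℝ) ≤ X := hTq.trans hX4'
    have hXX₁ : X₁ ≤ X := by exact_mod_cast hTX.trans hTX4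
    obtain ⟨hXa, hXb⟩ := hX₁ X hXX₁
    have hXX₀ : X₀ ≤ X := (le_max_left _ _).trans hXa
    have hX4 : 4 ≤ X := (le_max_right _ _).trans hXa
    have hX4r : (4 : ℝ) ≤ X := by exact_mod_cast hX4
    have hx0 : (0 : ℝ) < X := by linarith
    have hx1 : (1 : ℝ) ≤ X := by linarith
    have hP0 := hX₀ X hXX₀
    obtain ⟨y, hy⟩ : ∃ y : ℝ, y = (X : ℝ) ^ (998 / 1000 : ℝ) := ⟨_, rfl⟩
    rw [← hy] at hP0
    have hy0 : 0 < y := by rw [hy]; positivity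
    have hyx : y ≤ X := by
      rw [hy]
      calc (X : ℝ) ^ (998 / 1000 : ℝ) ≤ (X : ℝ) ^ (1 : ℝ) :=
            Real.rpow_le_rpow_of_exponent_le hx1 (by norm_num)
        _ = X := Real.rpow_one _
    have hyT : Cb * (T : ℝ) ^ (6 / 10 * (m : ℝ)) ≤ y := by
      calc Cb * (T : ℝ) ^ (6 / 10 * (m : ℝ)) ≤ (T : ℝ) * (T : ℝ) ^ (6 / 10 * (m : ℝ)) :=
            mul_le_mul_of_nonneg_right hTCb (by positivity)
        _ = (T : ℝ) ^ (6 / 10 * (m : ℝ) + 1) := by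
            nth_rewrite 1 [← Real.rpow_one (T : ℝ)]
            rw [← Real.rpow_add hT0]
            congr 1
            ring
        _ ≤ (T : ℝ) ^ ((4 / 5 * (m : ℝ) - 1) * (998 / 1000)) := by
            apply Real.rpow_le_rpow_of_exponent_le hTr
            linarith
        _ = ((T : ℝ) ^ (4 / 5 * (m : ℝ) - 1)) ^ (998 / 1000 : ℝ) := Real.rpow_mul hT0.le _ _
        _ ≤ (X : ℝ) ^ (998 / 1000 : ℝ) :=
            Real.rpow_le_rpow (by positivity) hX4' (by norm_num)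
        _ = y := hy.symm
    have hst : ((T : ℝ) ^ m) ^ (4 / 5 : ℝ) ≤ (T : ℝ) ^ m := by
      calc ((T : ℝ) ^ m) ^ (4 / 5 : ℝ) ≤ ((T : ℝ) ^ m) ^ (1 : ℝ) :=
            Real.rpow_le_rpow_of_exponent_le (one_le_pow₀ hTr) (by norm_num)
        _ = (T : ℝ) ^ m := Real.rpow_one _
    have hyt : y ≤ (T : ℝ) ^ m := hyx.trans (hXu.trans hst)
    obtain ⟨PA, hPA⟩ : ∃ PA : Finset ℕ,
      PA = (range (X + 1)).filter (fun p => p.Prime ∧ Adm p ∧ p₀ ≤ p) := ⟨_, rfl⟩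
    rw [← hPA] at hP0
    have hPAm : ∀ p ∈ PA, p.Prime ∧ Adm p ∧ p₀ ≤ p ∧ p ≤ X := by
      intro p hp
      rw [hPA, mem_filter, mem_range] at hp
      exact ⟨hp.2.1, hp.2.2.1, hp.2.2.2, by omega⟩
    obtain ⟨P0, hP0d⟩ : ∃ P0 : Finset ℕ, P0 = PA.filter (fun p => ¬ bad θ p) := ⟨_, rfl⟩
    have hP0c' : 2 * y ≤ P0.card := by
      have h1 := card_filter_add_card_filter_not (s := PA) (fun p => bad θ p)
      rw [← hP0d] at h1
      have h2 : ((PA.filter (fun p => bad θ p)).card : ℝ) ≤ Cb * size θ :=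
        hbad θ _ (fun p hp => by
          rw [mem_filter] at hp
          exact ⟨(hPAm p hp.1).1, (hPAm p hp.1).2.1, hp.2⟩)
      have h3 : Cb * size θ ≤ y := (mul_le_mul_of_nonneg_left hsize hCb).trans hyT
      have h4 : ((PA.filter (fun p => bad θ p)).card : ℝ) + (P0.card : ℝ) = PA.card := by
        exact_mod_cast h1
      linarith
    have hP0r : (0 : ℝ) < P0.card := by linarith
    have hP0c : 0 < P0.card := by exact_mod_cast hP0r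
    have hP0m : ∀ p ∈ P0, p.Prime ∧ (Adm p ∧ ¬ bad θ p) ∧ p₀ ≤ p ∧ p ≤ X := by
      intro p hp
      rw [hP0d, mem_filter] at hp
      obtain ⟨h1, h2, h3, h4⟩ := hPAm p hp.1
      exact ⟨h1, ⟨h2, hp.2⟩, h3, h4⟩
    have hKill' : ∀ i, Kill (hP i) (fun p => Adm p ∧ ¬ bad θ p) (fun p _ => rr p i) := by
      intro i P hP0 S hS
      refine hKill i P hP0 S (fun p hp => ?_)
      obtain ⟨hpf, hA, hD, h0⟩ := hS p hp
      exact ⟨hpf, hA.1, hD, h0⟩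
    obtain ⟨κ, hκ⟩ : ∃ κ : ℝ, κ = C₃ * (T : ℝ) ^ 2 / y := ⟨_, rfl⟩
    obtain ⟨PP, hPPs, hPPc, hPPμ⟩ := select a b Gp hP (fun p => Adm p ∧ ¬ bad θ p) rr hKill' hr1 m e
      c he P0 hP0c (by
      intro p hp
      obtain ⟨h1, h2, h3, _⟩ := hP0m p hp
      exact ⟨⟨h1⟩, h2, (@hdisc p ⟨h1⟩ h3).1⟩) (2 * T) (by omega) (κ * (T : ℝ) ^ m) (by
      have h1 := num_mu (T : ℝ) ((T : ℝ) ^ m) y P0.card c (Real.log 2) r (5 ^ m) hTr ht0 hy0 hyt
        (by linarith) (by linarith) hlog (Nat.cast_nonneg _) (((2 * (2 * T) + 1 : ℕ) : ℝ) ^ m)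
        (by positivity) (by
          rw [← mul_pow]
          push_cast
          apply pow_le_pow_left₀ (by positivity)
          linarith) (by positivity)
      rw [← hC₃, ← hκ] at h1
      push_cast at h1 ⊢
      exact h1)
    have hPPy : y ≤ PP.card := by linarith
    have hPPr : (0 : ℝ) < PP.card := by linarith
    have hPP0 : 0 < PP.card := by exact_mod_cast hPPr
    have hfix := core_fixedZ a b Gp hP (fun p => Adm p ∧ ¬ bad θ p) rr hKill' j (Lift θ) (G θ)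
      (hG1 θ) (hGcg θ) (Z θ) C₁ p₀ hC₁ (by
        intro p _ hp hA
        exact ⟨(hdisc p hp).1, (hdisc p hp).2, (hloc θ p hp hA.1 hA.2).1,
          (hloc θ p hp hA.1 hA.2).2⟩) c₀ hc₀ (by
        intro p _ hp hA P hPl
        exact hlift θ p hp hA.1 hA.2 P hPl)
      m e c he T hT τ (X : ℝ) hx1 PP (by
        intro p hp
        obtain ⟨h1, h2, h3, h4⟩ := hP0m p (hPPs hp)
        have h5 : (p : ℝ) ≤ X := by exact_mod_cast h4
        refine ⟨⟨h1⟩, h2, h3, h5, ?_⟩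
        intro i
        haveI : Fact p.Prime := ⟨h1⟩
        have h6 := hcard p (hdisc p h3).2 _ _ ((hdisc p h3).1 i)
        have h7 : C₂ * √p ≤ X := by
          rw [Real.rpow_zero, mul_one, ← Real.sqrt_eq_rpow] at hXb
          have h8 : √(p : ℝ) ≤ √X := Real.sqrt_le_sqrt h5
          calc C₂ * √p ≤ √X * √X := mul_le_mul hXb h8 (Real.sqrt_nonneg _) (Real.sqrt_nonneg _)
            _ = X := Real.mul_self_sqrt hx0.le
        linarith) hPP0 κ hPPμ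
    refine hfix.trans ?_
    have h1 := num_final2 C₁ C₃ c₀ r (3 ^ m) T ((T : ℝ) ^ m) X y PP.card (c / Real.log 2) m
      (by omega) hC₁ hC₃0 hc₀ (Nat.cast_nonneg _) (by positivity) hTr rfl hx1 hXu hXl hy hPPy
      (by positivity)
    rw [← hC₆, ← hκ] at h1
    have h3 : c / Real.log 2 * (T : ℝ) ^ 2 = c * (T : ℝ) ^ 2 / Real.log 2 := by ring
    rw [h3] at h1
    calc _ ≤ ((T : ℝ) ^ m) ^ r * (C₆ * (T : ℝ) ^ (2 - 98 / 1000 * (m : ℝ))) :=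
          mul_le_mul_of_nonneg_left h1 htr0.le
      _ = C₆ * (((T : ℝ) ^ m) ^ r * (T : ℝ) ^ (2 - 98 / 1000 * (m : ℝ))) := by ring
      _ ≤ _ := mul_le_mul_of_nonneg_right (le_max_left _ _) (by positivity)

end Pool.Agent.K9h5.Q
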