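import Mathlib
import Pool.Agent.K9h5.Q.CoreF
import Pool.Agent.K9h5.M.Pts

/-!
# Counting points in families
-/

set_option autoImplicit false
set_option linter.all false

namespace Pool.Agent.K9h5.Q

open Pool.Agent.H901R3.MS WeierstrassCurve Finset Filter Pool.Agent.K9h5 Pool.Agent.K9h5.T
  Pool.Agent.K9h5.N Pool.Agent.K9h5.M

open Classical in
/-- **The main theorem for points, for families.** -/
theorem points_fam {r : ℕ} (a b : Fin r → ℤ) (Gp : Fin r → Type) [∀ i, AddCommGroup (Gp i)]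
    (hP : ∀ i, Gp i → ℝ) (Adm : ℕ → Prop)
    (rr : ∀ (p : ℕ) [Fact p.Prime] (i : Fin r), Gp i →+ Pt (a i : ZMod p) (b i : ZMod p))
    (hKill : ∀ i, Kill (hP i) Adm (fun p _ => rr p i))
    (hsup : ∃ cP : ℝ, 0 < cP ∧ ∃ TP : ℕ, ∀ X : ℕ, TP ≤ X → cP * (X / Real.log X) ≤
      (((range (X + 1)).filter (fun p => p.Prime ∧ Adm p)).card : ℝ))
    (hFG : ∀ i, AddGroup.FG (Gp i)) (hP0 : ∀ i P, 0 ≤ hP i P)
    (north : ∀ i (B : ℝ), {P : Gp i | hP i P ≤ B}.Finite)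
    (hψ : ∀ i, ∃ (m : ℕ) (ψ : Gp i →+ EuclideanSpace ℝ (Fin m)) (C : ℝ),
      ∀ P, |‖ψ P‖ ^ 2 - hP i P| ≤ C) (h00 : ∀ i, hP i 0 = 0) (j : Fin r)
    (ι : Type) (size : ι → ℝ) (bad : ι → ℕ → Prop) (Cb : ℝ)
    (hbad : ∀ θ, ∀ S : Finset ℕ, (∀ p ∈ S, p.Prime ∧ Adm p ∧ bad θ p) → (S.card : ℝ) ≤ Cb * size θ)
    (hCb : 0 ≤ Cb)
    (Lift : ι → (∀ i, Gp i) → Prop)
    (G : ι → ∀ (p : ℕ) [Fact p.Prime], (∀ i, Pt (a i : ZMod p) (b i : ZMod p)) →
      Pt (a j : ZMod p) (b j : ZMod p) → ℝ)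
    (hG1 : ∀ θ (p : ℕ) [Fact p.Prime] (P : ∀ i, Pt (a i : ZMod p) (b i : ZMod p))
      (u : Pt (a j : ZMod p) (b j : ZMod p)), |G θ p P u| ≤ 1)
    (hGcg : ∀ θ (p : ℕ) [Fact p.Prime] (P P' : ∀ i, Pt (a i : ZMod p) (b i : ZMod p)),
      (∀ i, i ≠ j → P i = P' i) → G θ p P = G θ p P')
    (Z : ι → ∀ (p : ℕ) [Fact p.Prime], (∀ i, Pt (a i : ZMod p) (b i : ZMod p)) → Prop)
    (Cl : ℝ) (p₀ : ℕ) (hCl : 0 ≤ Cl)
    (hdisc : ∀ (p : ℕ) [Fact p.Prime], p₀ ≤ p → (∀ i, Disc (a i : ZMod p) (b i : ZMod p)) ∧ p ≠ 2)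
    (hloc : ∀ θ (p : ℕ) [Fact p.Prime], p₀ ≤ p → Adm p → ¬ bad θ p →
      (∀ S : ∀ i, Finset (Pt (a i : ZMod p) (b i : ZMod p)),
        (((Fintype.piFinset S).filter (Z θ p)).card : ℝ) ≤ Cl * bdT a b p S) ∧
      (∀ P : ∀ i, Pt (a i : ZMod p) (b i : ZMod p), GoodZ a b j p (Z θ p) P →
        ∃ Bd : Finset (Pt (a j : ZMod p) (b j : ZMod p)), 3 / 2 * (Bd.card : ℝ) ≤ Cl ∧
          ∀ h h', h ∉ Bd → h' ∉ Bd → h + h' ∉ Bd → h - h' ∉ Bd →
            |∑ u : Pt (a j : ZMod p) (b j : ZMod p), G θ p P u * G θ p P (u + h) *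
              G θ p P (u + h') * G θ p P (u + (h + h'))| ≤ Cl * √p))
    (cl : ℝ) (hcl : 0 < cl)
    (hlift : ∀ θ (p : ℕ) [Fact p.Prime], p₀ ≤ p → Adm p → ¬ bad θ p → ∀ P, Lift θ P →
      cl ≤ G θ p (fun i => rr p i (P i)) (rr p j (P j)))
    (m : ℕ) (hrk : ∀ i, m ≤ Module.finrank ℤ (Gp i)) :
    ∃ C : ℝ, 0 ≤ C ∧ ∀ θ, ∀ B : ℝ, 1 ≤ B → size θ ≤ B ^ (3 / 10 * (m : ℝ)) →
      ({P : ∀ i, Gp i | (∀ i, hP i (P i) ≤ B) ∧ Lift θ P}.ncard : ℝ) ≤
      C * (B ^ ((2 - 98 / 1000 * (m : ℝ)) / 2) * ((ABg hP B).ncard : ℝ)) := by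
  set ρ : Fin r → ℕ := fun i => Module.finrank ℤ (Gp i) with hρ
  choose e c₁ C₁ hHB₁ hC₁ hcov₁ using
    fun i => coverG (hFG i) (hP i) (hP0 i) (north i) (hψ i) m (hrk i)
  choose c₀ hc₀ hlow using fun i => lowerG (hFG i) (hP i) (hP0 i) (north i) (hψ i) (h00 i)
  set c : ℝ := ∑ i, c₁ i with hc
  have hc1 : ∀ i, 0 ≤ c₁ i := fun i => by linarith [(hHB₁ i).1]
  have hcc : ∀ i, c₁ i ≤ c := fun i =>
    single_le_sum (f := c₁) (fun i _ => hc1 i) (mem_univ i)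
  have hc1' : 1 ≤ c := (hHB₁ j).1.trans (hcc j)
  obtain ⟨CC, hCC, hcore⟩ := core_fam a b Gp hP Adm rr hKill hsup j ι size bad Cb hbad hCb Lift G
    hG1 hGcg Z Cl p₀ hCl hdisc hloc cl hcl hlift m e c (fun i => HBg_mono (hHB₁ i) (hcc i))
  set K : ℝ := 7 * c with hK
  have hK1 : 1 ≤ K := by rw [hK]; linarith
  set C₄ : ℝ := ∏ i, C₁ i with hC₄
  have hC₄0 : 0 ≤ C₄ := prod_nonneg fun i _ => hC₁ i
  have hc0p : 0 < ∏ i, c₀ i := prod_pos fun i _ => hc₀ i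
  set ε : ℝ := 2 - 98 / 1000 * (m : ℝ) with hε
  have hε3 : ε ≤ 3 := by
    have : (0 : ℝ) ≤ m := Nat.cast_nonneg _
    rw [hε]; linarith
  refine ⟨C₄ * CC * K ^ (∑ i, ρ i) * K ^ 3 / ∏ i, c₀ i, by positivity, ?_⟩
  intro θ B hB hsz
  have hB0 : 0 < B := by linarith
  have hfin := ABg_finite hP north B
  -- the size of the boxes
  set T₁ : ℕ := ⌈c * √(B + 1)⌉₊ with hT₁
  set T : ℕ := 2 * T₁ + 1 with hT
  have hT1 : 1 ≤ T := by omega
  have hTr : (1 : ℝ) ≤ T := by exact_mod_cast hT1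
  have hT0 : (0 : ℝ) < T := by linarith
  have hsB : (1 : ℝ) ≤ √B := by rw [Real.one_le_sqrt]; exact hB
  have hsB2 : √(B + 1) ≤ 3 / 2 * √B := by
    rw [show (3 / 2 : ℝ) * √B = √(9 / 4 * B) by
      rw [Real.sqrt_mul' _ hB0.le]
      congr 1
      rw [show (9 / 4 : ℝ) = (3 / 2) ^ 2 by norm_num, Real.sqrt_sq (by norm_num)]]
    apply Real.sqrt_le_sqrt
    linarith
  have hTK : (T : ℝ) ≤ K * √B := by
    have h1 : (T₁ : ℝ) < c * √(B + 1) + 1 := Nat.ceil_lt_add_one (by positivity)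
    have h2 : (T : ℝ) = 2 * T₁ + 1 := by rw [hT]; push_cast; ring
    rw [h2, hK]
    have h3 : c * √(B + 1) ≤ c * (3 / 2 * √B) := mul_le_mul_of_nonneg_left hsB2 (by linarith)
    have h4 : 1 ≤ c * √B := by nlinarith
    nlinarith
  have hTB : √B ≤ T := by
    have h1 : c * √(B + 1) ≤ T₁ := Nat.le_ceil _
    have h2 : (T : ℝ) = 2 * T₁ + 1 := by rw [hT]; push_cast; ring
    have h3 : √B ≤ √(B + 1) := Real.sqrt_le_sqrt (by linarith)
    have h4 : √(B + 1) ≤ c * √(B + 1) := le_mul_of_one_le_left (Real.sqrt_nonneg _) hc1'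
    rw [h2]
    have h5 : (0 : ℝ) ≤ T₁ := Nat.cast_nonneg _
    linarith
  have hszT : size θ ≤ (T : ℝ) ^ (6 / 10 * (m : ℝ)) := by
    refine hsz.trans ?_
    calc B ^ (3 / 10 * (m : ℝ)) = (√B) ^ (6 / 10 * (m : ℝ)) := by
          rw [Real.sqrt_eq_rpow, ← Real.rpow_mul hB0.le]
          congr 1
          ring
      _ ≤ (T : ℝ) ^ (6 / 10 * (m : ℝ)) :=
          Real.rpow_le_rpow (Real.sqrt_nonneg _) hTB (by positivity)
  choose Sh hShc hSh using fun i => hcov₁ i T₁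
  -- the cover
  set LB : Set (∀ i, Gp i) := {P | (∀ i, hP i (P i) ≤ B) ∧ Lift θ P} with hLB
  set UU : Finset (∀ i, Gp i) := (Fintype.piFinset Sh).biUnion (fun σ =>
    ((Fintype.piFinset (fun _ : Fin r => Iz0 m T)).filter
      (fun v => Lift θ (fun i => σ i + lin (e i) (v i)))).image
      (fun v => (fun i => σ i + lin (e i) (v i)))) with hUU
  have hLU : LB ⊆ (UU : Set _) := by
    rintro P ⟨hPB, hPw⟩
    have hle : ∀ i, c₁ i * √(hP i (P i) + 1) ≤ T₁ := by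
      intro i
      refine le_trans ?_ (Nat.le_ceil (c * √(B + 1)))
      refine mul_le_mul (hcc i) ?_ (Real.sqrt_nonneg _) (by linarith)
      apply Real.sqrt_le_sqrt
      linarith [hPB i]
    choose σ hσ n hn hPn using fun i => hSh i (P i) (hle i)
    have hpt : (fun i => σ i + lin (e i) (fun k => (n i k : ℤ))) = P := by
      funext i
      rw [lin_apply]
      have h1 : ∀ k, ((n i k : ℕ) : ℤ) • e i k = n i k • e i k := fun k => natCast_zsmul _ _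
      simp only [h1]
      exact (hPn i).symm
    rw [mem_coe, hUU, mem_biUnion]
    refine ⟨σ, ?_, ?_⟩
    · rw [Fintype.mem_piFinset]
      exact hσ
    · rw [mem_image]
      refine ⟨fun i k => (n i k : ℤ), ?_, hpt⟩
      rw [mem_filter, Fintype.mem_piFinset]
      refine ⟨fun i => ?_, ?_⟩
      · rw [mem_Iz0]
        intro k
        have := hn i k
        constructor
        · positivity
        · exact_mod_cast this
      · rw [hpt]
        exact hPw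
  have h1 : (LB.ncard : ℝ) ≤ (UU.card : ℝ) := by
    have h2 := Set.ncard_le_ncard hLU (Finset.finite_toSet _)
    rw [Set.ncard_coe_finset] at h2
    exact_mod_cast h2
  have h2 : (UU.card : ℝ) ≤ ((Fintype.piFinset Sh).card : ℝ) *
      (CC * (((T : ℝ) ^ m) ^ r * (T : ℝ) ^ ε)) := by
    have h3 : (UU.card : ℝ) ≤ ∑ σ ∈ Fintype.piFinset Sh,
        (((Fintype.piFinset (fun _ : Fin r => Iz0 m T)).filter
          (fun v => Lift θ (fun i => σ i + lin (e i) (v i)))).card : ℝ) := by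
      exact_mod_cast card_biUnion_le.trans (sum_le_sum fun σ _ => card_image_le)
    refine h3.trans ((sum_le_sum fun σ _ => hcore θ T hT1 hszT σ).trans ?_)
    rw [sum_const, nsmul_eq_mul]
  have h3 : ((Fintype.piFinset Sh).card : ℝ) ≤ C₄ * ∏ i, (T : ℝ) ^ (ρ i - m) := by
    rw [Fintype.card_piFinset]
    push_cast
    rw [hC₄, ← prod_mul_distrib]
    refine prod_le_prod (fun i _ => Nat.cast_nonneg _) fun i _ => ?_
    exact hShc i
  have hprod : (∏ i, (T : ℝ) ^ (ρ i - m)) * ((T : ℝ) ^ m) ^ r = ∏ i, (T : ℝ) ^ ρ i := by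
    have e1 : ((T : ℝ) ^ m) ^ r = ∏ _i : Fin r, (T : ℝ) ^ m := by
      rw [prod_const, card_univ, Fintype.card_fin]
    rw [e1, ← prod_mul_distrib]
    refine prod_congr rfl fun i _ => ?_
    rw [← pow_add]
    congr 1
    have h9 : m ≤ ρ i := hrk i
    omega
  have h4 : (LB.ncard : ℝ) ≤ C₄ * CC * ((∏ i, (T : ℝ) ^ ρ i) * (T : ℝ) ^ ε) := by
    refine h1.trans (h2.trans ?_)
    refine (mul_le_mul_of_nonneg_right h3 (by positivity)).trans (le_of_eq ?_)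
    rw [← hprod]
    ring
  -- powers of B
  have h5 : (∏ i, (T : ℝ) ^ ρ i) ≤ K ^ (∑ i, ρ i) * ∏ i, B ^ ((ρ i : ℝ) / 2) := by
    rw [prod_pow_eq_pow_sum]
    refine (pow_le_pow_left₀ hT0.le hTK _).trans (le_of_eq ?_)
    rw [mul_pow]
    congr 1
    rw [← prod_pow_eq_pow_sum]
    refine prod_congr rfl fun i _ => ?_
    rw [Real.sqrt_eq_rpow, ← Real.rpow_natCast, ← Real.rpow_mul hB0.le]
    congr 1
    ring
  have h6 := T_pow K B T ε hK1 hB hTK hTB hε3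
  have h7 : (∏ i, c₀ i) * ∏ i, B ^ ((ρ i : ℝ) / 2) ≤ ((ABg hP B).ncard : ℝ) := by
    rw [ABg_card hP north, ← prod_mul_distrib]
    push_cast
    refine prod_le_prod (fun i _ => mul_nonneg (hc₀ i).le (by positivity)) fun i _ => ?_
    exact hlow i B hB0.le (north i B)
  calc (LB.ncard : ℝ) ≤ C₄ * CC * ((∏ i, (T : ℝ) ^ ρ i) * (T : ℝ) ^ ε) := h4
    _ ≤ C₄ * CC * ((K ^ (∑ i, ρ i) * ∏ i, B ^ ((ρ i : ℝ) / 2)) * (K ^ 3 * B ^ (ε / 2))) := by
        refine mul_le_mul_of_nonneg_left ?_ (by positivity)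
        exact mul_le_mul h5 h6 (by positivity) (by positivity)
    _ = C₄ * CC * K ^ (∑ i, ρ i) * K ^ 3 / (∏ i, c₀ i) *
        (B ^ (ε / 2) * ((∏ i, c₀ i) * ∏ i, B ^ ((ρ i : ℝ) / 2))) := by
        field_simp
    _ ≤ _ := by
        refine mul_le_mul_of_nonneg_left ?_ (by positivity)
        exact mul_le_mul_of_nonneg_left h7 (by positivity)

end Pool.Agent.K9h5.Q
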