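import Mathlib
import Pool.Agent.K9h5.Sz
import Pool.Agent.K9h5.Q.Uu

/-!
# A Schwartz-Zippel lemma on products of elliptic curves, with parameters
-/

set_option autoImplicit false
set_option linter.all false

namespace Pool.Agent.K9h5.Q

open Polynomial Pool.Agent.H901R3.MS WeierstrassCurve Finset Pool.Agent.K9h5

/-- the polynomial depends only on the parameters and on the variables in `T` -/
def DepU {r s : ℕ} (F : MvPolynomial (Fin (r + s) × Fin 3) ℤ) (T : Finset (Fin r)) : Prop :=
  ∀ (S : Type) [CommRing S] (V V' : Fin (r + s) → Fin 3 → S),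
    (∀ i ∈ T, V (Fin.castAdd s i) = V' (Fin.castAdd s i)) →
    (∀ i : Fin s, V (Fin.natAdd r i) = V' (Fin.natAdd r i)) → evF F V = evF F V'

theorem szf_aux {r s : ℕ} (a b : Fin r → ℤ) (t₀ : Fin s → ℂ) (P₀ : Fin r → Fin 3 → ℂ)
    (haff : ∀ i, P₀ i 2 = 1 ∧ P₀ i 1 ^ 2 = P₀ i 0 ^ 3 + a i * P₀ i 0 + b i) :
    ∀ (n : ℕ) (T : Finset (Fin r)), T.card = n → ∀ F : MvPolynomial (Fin (r + s) × Fin 3) ℤ,
      DepU F T → evF F (UU t₀ P₀) ≠ 0 → ∃ (bb : MvPolynomial (Fin s) ℤ) (C : ℕ),
        MvPolynomial.aeval t₀ bb ≠ 0 ∧ ∀ (p : ℕ) [Fact p.Prime] (t : Fin s → ZMod p),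
        MvPolynomial.aeval t bb ≠ 0 →
        ∀ S : ∀ i, Finset (Pt (a i : ZMod p) (b i : ZMod p)),
          (open Classical in ((Fintype.piFinset S).filter
            (fun P => evF F (UU t (fun i => rep (P i))) = 0)).card) ≤ C * bdT a b p S := by
  classical
  intro n
  induction n with
  | zero =>
    intro T hT F hdep h0
    rw [card_eq_zero] at hT
    subst hT
    obtain ⟨bb, hbb⟩ : ∃ bb : MvPolynomial (Fin s) ℤ, bb =
      evF F (UU (fun i => (MvPolynomial.X i : MvPolynomial (Fin s) ℤ)) 0) := ⟨_, rfl⟩
    have hall : ∀ (S : Type) [CommRing S] (t : Fin s → S) (P : Fin r → Fin 3 → S),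
        evF F (UU t P) = MvPolynomial.aeval t bb := by
      intro S _ t P
      have h1 := evF_map ((MvPolynomial.aeval t : MvPolynomial (Fin s) ℤ →ₐ[ℤ] S) :
        MvPolynomial (Fin s) ℤ →+* S) F (UU (fun i => (MvPolynomial.X i : MvPolynomial (Fin s) ℤ)) 0)
      rw [← hbb, UU_map] at h1
      refine Eq.trans ?_ h1.symm
      apply hdep
      · intro i hi
        exact absurd hi (notMem_empty i)
      · intro i
        rw [UU_nat, UU_nat]
        congr 1
        exact (MvPolynomial.aeval_X t i).symm
    refine ⟨bb, 0, ?_, ?_⟩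
    · rw [← hall ℂ t₀ P₀]
      exact h0
    · intro p _ t ht S
      rw [zero_mul, Nat.le_zero, card_eq_zero, filter_eq_empty_iff]
      intro P _ hP
      rw [hall] at hP
      exact ht hP
  | succ n ih =>
    intro T hT F hdep h0
    obtain ⟨i₀, hi₀⟩ : T.Nonempty := by
      rw [← card_pos, hT]; omega
    set T' := T.erase i₀ with hT'
    have hT'c : T'.card = n := by
      rw [hT', card_erase_of_mem hi₀, hT]; rfl
    set j₀ : Fin (r + s) := Fin.castAdd s i₀ with hj₀
    set V₀ : Fin (r + s) → Fin 3 → ℂ := UU t₀ P₀ with hV₀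
    set zU : QA (RU (r + s)) (a i₀ : RU (r + s)) (b i₀ : RU (r + s)) :=
      evF F (gen j₀ _ _ (fun i k => MvPolynomial.X (i, k))) with hzU
    have hmap : ∀ (S : Type) [CommRing S] (V : Fin (r + s) → Fin 3 → S),
        mapQ (spH V) _ _ (a i₀ : S) (b i₀ : S) (map_intCast _ _) (map_intCast _ _) zU =
          evF F (gen j₀ (a i₀ : S) (b i₀ : S) V) := by
      intro S _ V
      rw [hzU, mapQ_gen]
      congr 2
      funext i k
      rw [spH_X]
    have hgdep : ∀ (S : Type) [CommRing S] (V V' : Fin (r + s) → Fin 3 → S),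
        (∀ i ∈ T', V (Fin.castAdd s i) = V' (Fin.castAdd s i)) →
        (∀ i : Fin s, V (Fin.natAdd r i) = V' (Fin.natAdd r i)) →
        evF F (gen j₀ (a i₀ : S) (b i₀ : S) V) = evF F (gen j₀ (a i₀ : S) (b i₀ : S) V') := by
      intro S _ V V' hVV hVV'
      refine hdep (QA S (a i₀ : S) (b i₀ : S)) (gen j₀ (a i₀ : S) (b i₀ : S) V)
        (gen j₀ (a i₀ : S) (b i₀ : S) V') ?_ ?_
      · intro i hi
        funext k
        unfold gen
        by_cases h : i = i₀
        · subst h
          rw [if_pos rfl, if_pos rfl]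
        · have h' : Fin.castAdd s i ≠ j₀ := fun h' => h (Fin.castAdd_injective r s h')
          rw [if_neg h', if_neg h', hVV i (mem_erase.2 ⟨h, hi⟩)]
      · intro i
        funext k
        unfold gen
        rw [if_neg (nat_ne_cast i i₀), if_neg (nat_ne_cast i i₀), hVV' i]
    -- a coefficient which does not vanish
    obtain ⟨γ, hγdep, hγ0, hγ⟩ : ∃ γ : RU (r + s), DepU γ T' ∧ evF γ V₀ ≠ 0 ∧
        ∀ (S : Type) [CommRing S] (V : Fin (r + s) → Fin 3 → S), evF γ V ≠ 0 →
          evF F (gen j₀ (a i₀ : S) (b i₀ : S) V) ≠ 0 := by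
      have h1 : evF F (gen j₀ (a i₀ : ℂ) (b i₀ : ℂ) V₀) ≠ 0 := by
        intro h
        apply h0
        have hE : (P₀ i₀ 1) ^ 2 = (P₀ i₀ 0) ^ 3 + (RingHom.id ℂ) (a i₀ : ℂ) * (P₀ i₀ 0) +
          (RingHom.id ℂ) (b i₀ : ℂ) := (haff i₀).2
        have h2 := evQ_gen (RingHom.id ℂ) j₀ (a i₀ : ℂ) (b i₀ : ℂ) V₀ (P₀ i₀ 0) (P₀ i₀ 1) hE F
        rw [h, map_zero] at h2
        rw [h2]
        congr 1
        funext i k
        by_cases hi : i = j₀
        · rw [if_pos hi]
          subst hi
          rw [hV₀, UU_cast]
          have h3 := (haff i₀).1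
          fin_cases k <;> simp [h3]
        · rw [if_neg hi]; rfl
      rw [← hmap] at h1
      have h2 : (∃ m, ((mapQ (spH V₀) _ _ (a i₀ : ℂ) (b i₀ : ℂ) (map_intCast _ _) (map_intCast _ _)
          zU).re).coeff m ≠ 0) ∨ (∃ m, ((mapQ (spH V₀) _ _ (a i₀ : ℂ) (b i₀ : ℂ) (map_intCast _ _)
          (map_intCast _ _) zU).im).coeff m ≠ 0) := by
        by_contra hcon
        push Not at hcon
        apply h1
        ext1
        · ext m; rw [hcon.1 m]; simp
        · ext m; rw [hcon.2 m]; simp
      rcases h2 with ⟨m, hm⟩ | ⟨m, hm⟩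
      · refine ⟨zU.re.coeff m, ?_, ?_, ?_⟩
        · intro S _ V V' hVV hVV'
          have e1 := congrArg (fun z => (z.re).coeff m) (hmap S V)
          have e2 := congrArg (fun z => (z.re).coeff m) (hmap S V')
          simp only [mapQ_re, coeff_map, spH_apply] at e1 e2
          rw [e1, e2, hgdep S V V' hVV hVV']
        · rw [mapQ_re, coeff_map, spH_apply] at hm
          exact hm
        · intro S _ V hV h
          apply hV
          have e1 := congrArg (fun z => (z.re).coeff m) (hmap S V)
          simp only [mapQ_re, coeff_map, spH_apply] at e1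
          rw [e1, h]
          simp
      · refine ⟨zU.im.coeff m, ?_, ?_, ?_⟩
        · intro S _ V V' hVV hVV'
          have e1 := congrArg (fun z => (z.im).coeff m) (hmap S V)
          have e2 := congrArg (fun z => (z.im).coeff m) (hmap S V')
          simp only [mapQ_im, coeff_map, spH_apply] at e1 e2
          rw [e1, e2, hgdep S V V' hVV hVV']
        · rw [mapQ_im, coeff_map, spH_apply] at hm
          exact hm
        · intro S _ V hV h
          apply hV
          have e1 := congrArg (fun z => (z.im).coeff m) (hmap S V)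
          simp only [mapQ_im, coeff_map, spH_apply] at e1
          rw [e1, h]
          simp
    obtain ⟨bb, C', hbb0, hC'⟩ := ih T' hT'c γ hγdep hγ0
    set D := max zU.re.natDegree zU.im.natDegree with hD
    refine ⟨bb, C' + (4 * D + 7), hbb0, ?_⟩
    intro p _ t ht S
    have h1 := hC' p t ht S
    -- the tuples where `γ` does not vanish
    set W : Finset (∀ i, Pt (a i : ZMod p) (b i : ZMod p)) := (Fintype.piFinset S).filter
      (fun P => evF γ (UU t (fun i => rep (P i))) ≠ 0 ∧ evF F (UU t (fun i => rep (P i))) = 0)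
      with hW
    have h2 : W.card ≤ (4 * D + 7) * ∏ i' ∈ univ.erase i₀, (S i').card := by
      set B : Finset (∀ i, Pt (a i : ZMod p) (b i : ZMod p)) :=
        Fintype.piFinset (Function.update S i₀ {0}) with hB
      have hBc : B.card = ∏ i' ∈ univ.erase i₀, (S i').card := by
        rw [hB, Fintype.card_piFinset, ← Finset.mul_prod_erase univ _ (mem_univ i₀),
          Function.update_self, card_singleton, one_mul]
        refine Finset.prod_congr rfl fun i hi => ?_
        rw [Function.update_of_ne (ne_of_mem_erase hi)]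
      have hmaps : ∀ P ∈ W, Function.update P i₀ 0 ∈ B := by
        intro P hP
        rw [hW, mem_filter, Fintype.mem_piFinset] at hP
        rw [hB, Fintype.mem_piFinset]
        intro i
        by_cases hi : i = i₀
        · subst hi
          rw [Function.update_self, Function.update_self]
          exact mem_singleton_self _
        · rw [Function.update_of_ne hi, Function.update_of_ne hi]
          exact hP.1 i
      rw [card_eq_sum_card_fiberwise hmaps, ← hBc, mul_comm]
      refine (sum_le_card_nsmul _ _ (4 * D + 7) ?_).trans (by rw [smul_eq_mul])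
      intro Q hQ
      by_cases hne : (W.filter (fun P => Function.update P i₀ 0 = Q)).Nonempty
      · obtain ⟨P₁, hP₁⟩ := hne
        rw [mem_filter, hW, mem_filter] at hP₁
        obtain ⟨⟨_, hγP, _⟩, hPQ⟩ := hP₁
        set V : Fin (r + s) → Fin 3 → ZMod p := UU t (fun i => rep (P₁ i)) with hV
        set zV := evF F (gen j₀ (a i₀ : ZMod p) (b i₀ : ZMod p) V) with hzV
        have hz0 : zV ≠ 0 := hγ (ZMod p) V hγP
        have hzd : degQ zV D := by
          rw [hzV, ← hmap]
          constructor
          · rw [mapQ_re]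
            exact natDegree_map_le.trans (le_max_left _ _)
          · rw [mapQ_im]
            exact natDegree_map_le.trans (le_max_right _ _)
        set Qp : Pt (a i₀ : ZMod p) (b i₀ : ZMod p) → Prop := fun u =>
          evF F (UU t (fun i => rep (Function.update P₁ i₀ u i))) = 0 with hQp
        have h3 := zeros_le zV hz0 hzd Qp (by
          intro x y h hq
          have hE : y ^ 2 = x ^ 3 + (RingHom.id (ZMod p)) (a i₀ : ZMod p) * x +
            (RingHom.id (ZMod p)) (b i₀ : ZMod p) := eqn_of h
          have h4 := evQ_gen (RingHom.id (ZMod p)) j₀ (a i₀ : ZMod p) (b i₀ : ZMod p) V x y hE F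
          rw [evQ_apply, eval₂_id, eval₂_id] at h4
          rw [h4, ← hq]
          congr 1
          have h5 : (fun i => rep (Function.update P₁ i₀ (Affine.Point.some x y h) i)) =
              Function.update (fun i => rep (P₁ i)) i₀
                (rep (Affine.Point.some x y h : Pt (a i₀ : ZMod p) (b i₀ : ZMod p))) := by
            funext i
            by_cases hi : i = i₀
            · subst hi
              rw [Function.update_self, Function.update_self]
            · rw [Function.update_of_ne hi, Function.update_of_ne hi]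
          rw [h5, ← UU_update]
          funext i k
          by_cases hi : i = j₀
          · rw [if_pos hi, hi, Function.update_self]
            rfl
          · rw [if_neg hi, Function.update_of_ne hi]
            rfl)
        refine le_trans ?_ h3
        refine card_le_card_of_injOn (fun P => P i₀) ?_ ?_
        · intro P hP
          rw [mem_coe, mem_filter, hW, mem_filter] at hP
          obtain ⟨⟨_, _, hF⟩, hPQ'⟩ := hP
          rw [mem_coe, mem_filter]
          refine ⟨mem_univ _, ?_⟩
          have h5 : Function.update P₁ i₀ (P i₀) = P := by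
            funext i
            by_cases hi : i = i₀
            · subst hi; rw [Function.update_self]
            · have h6 := congrFun (hPQ.trans hPQ'.symm) i
              rw [Function.update_of_ne hi, Function.update_of_ne hi] at h6
              rw [Function.update_of_ne hi, h6]
          show evF F (UU t (fun i => rep (Function.update P₁ i₀ (P i₀) i))) = 0
          rw [h5]
          exact hF
        · intro P hP P' hP' h
          rw [mem_coe, mem_filter] at hP hP'
          funext i
          by_cases hi : i = i₀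
          · subst hi; exact h
          · have h6 := congrFun (hP.2.trans hP'.2.symm) i
            rw [Function.update_of_ne hi, Function.update_of_ne hi] at h6
            exact h6
      · rw [not_nonempty_iff_eq_empty] at hne
        rw [hne, card_empty]
        exact Nat.zero_le _
    have h3 : (Fintype.piFinset S).filter (fun P => evF F (UU t (fun i => rep (P i))) = 0) ⊆
        (Fintype.piFinset S).filter (fun P => evF γ (UU t (fun i => rep (P i))) = 0) ∪ W := by
      intro P hP
      rw [mem_filter] at hP
      rw [mem_union, mem_filter, hW, mem_filter]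
      by_cases h : evF γ (UU t (fun i => rep (P i))) = 0
      · left; exact ⟨hP.1, h⟩
      · right; exact ⟨hP.1, h, hP.2⟩
    have h4 : ∏ i' ∈ univ.erase i₀, (S i').card ≤ bdT a b p S := by
      unfold bdT
      exact single_le_sum (f := fun i => ∏ i' ∈ univ.erase i, (S i').card)
        (fun _ _ => Nat.zero_le _) (mem_univ i₀)
    refine (card_le_card h3).trans ((card_union_le _ _).trans ?_)
    rw [add_mul]
    exact add_le_add h1 (h2.trans (Nat.mul_le_mul_left _ h4))

open Classical in
/-- **Schwartz-Zippel on a product of elliptic curves, with parameters.** -/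
theorem sz_fam {r s : ℕ} (a b : Fin r → ℤ) (bp : MvPolynomial (Fin (r + s) × Fin 3) ℤ)
    (t₀ : Fin s → ℂ) (P₀ : Fin r → Fin 3 → ℂ)
    (haff : ∀ i, P₀ i 2 = 1 ∧ P₀ i 1 ^ 2 = P₀ i 0 ^ 3 + a i * P₀ i 0 + b i)
    (h0 : evF bp (UU t₀ P₀) ≠ 0) :
    ∃ (bb : MvPolynomial (Fin s) ℤ) (C p₀ : ℕ), MvPolynomial.aeval t₀ bb ≠ 0 ∧
      ∀ (p : ℕ) [Fact p.Prime], p₀ ≤ p → ∀ t : Fin s → ZMod p, MvPolynomial.aeval t bb ≠ 0 →
        ∀ S : ∀ i, Finset (Pt (a i : ZMod p) (b i : ZMod p)),
          ((Fintype.piFinset S).filter (fun P => evF bp (UU t (fun i => rep (P i))) = 0)).card ≤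
            C * bdT a b p S := by
  obtain ⟨bb, C, h1, h2⟩ := szf_aux a b t₀ P₀ haff _ univ rfl bp (by
    intro S _ V V' h h'
    have : V = V' := by
      funext i
      refine Fin.addCases (fun i => ?_) (fun i => ?_) i
      · exact h i (mem_univ i)
      · exact h' i
    rw [this]) h0
  exact ⟨bb, C, 0, h1, fun p _ _ t ht S => h2 p t ht S⟩

end Pool.Agent.K9h5.Q
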