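import Mathlib
import Pool.Agent.K9h5.Q.PtsF
import Pool.Agent.K9h5.Q.GenPF
import Pool.Agent.K9h5.Q.LiftQ
import Pool.Agent.K9h5.Q.Szf
import Pool.Agent.K9h5.Q.Hts

/-!
# The Galois group is the symmetric group outside a thin set of small size: families
-/

set_option autoImplicit false
set_option linter.all false

namespace Pool.Agent.K9h5.Q

open Polynomial Pool.Agent.H901R3.MS WeierstrassCurve Finset Pool.Agent.K9h5 Pool.Agent.K9h5.T
  Pool.Agent.K9h5.U Pool.Agent.K9h5.N Height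

/-- the reduced parameters -/
noncomputable def rt (K : Type) [Field K] [NumberField K] {s : ℕ} (p : ℕ) [Fact p.Prime]
    (t : Fin s → K) : Fin s → ZMod p :=
  open Classical in fun i => if h : AdmK K p then (vK K p h).r (t i) else 0

theorem rt_eq (K : Type) [Field K] [NumberField K] {s : ℕ} (p : ℕ) [Fact p.Prime] (h : AdmK K p)
    (t : Fin s → K) : rt K p t = fun i => (vK K p h).r (t i) := by
  funext i
  unfold rt
  rw [dif_pos h]

/-- a root in the ground field excludes long cycles -/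
theorem no_root {K : Type} [Field K] {n : ℕ} (hn : 2 ≤ n) (g : K[X]) (hg : g.Monic)
    (hgn : g.natDegree = n) (x : K) (hx : g.IsRoot x) : ¬ TypeK g (finRotate n) := by
  classical
  rintro ⟨w, τ, hwi, hwr, hτ⟩
  have hall : ∀ z : g.SplittingField, aeval z g = 0 → ∃ j, w j = z := by
    intro z hz
    have h1 : (univ.image w) ⊆ (g.map (algebraMap K g.SplittingField)).roots.toFinset := by
      intro y hy
      obtain ⟨j, _, rfl⟩ := mem_image.1 hy
      rw [Multiset.mem_toFinset, mem_roots ((hg.map _).ne_zero), IsRoot.def, eval_map,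
        ← aeval_def]
      exact hwr j
    have h2 : (g.map (algebraMap K g.SplittingField)).roots.toFinset.card ≤
        (univ.image w).card := by
      rw [card_image_of_injective _ hwi, card_univ, Fintype.card_fin]
      refine (Multiset.toFinset_card_le _).trans ((card_roots' _).trans ?_)
      rw [hg.natDegree_map, hgn]
    have h3 := eq_of_subset_of_card_le h1 h2
    have h4 : z ∈ univ.image w := by
      rw [h3, Multiset.mem_toFinset, mem_roots ((hg.map _).ne_zero), IsRoot.def, eval_map,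
        ← aeval_def]
      exact hz
    obtain ⟨j, _, hj⟩ := mem_image.1 h4
    exact ⟨j, hj⟩
  obtain ⟨j, hj⟩ := hall (algebraMap K g.SplittingField x) (by
    rw [aeval_algebraMap_apply, coe_aeval_eq_eval, hx.eq_zero, map_zero])
  have h1 := hτ j
  rw [hj] at h1
  have h2 : τ (algebraMap K g.SplittingField x) = algebraMap K g.SplittingField x :=
    AlgEquiv.commutes τ x
  rw [h2, ← hj] at h1
  have h3 := hwi h1
  obtain ⟨m, rfl⟩ : ∃ m, n = m + 2 := ⟨n - 2, by omega⟩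
  rw [finRotate_succ_apply] at h3
  have h4 : (1 : Fin (m + 2)) = 0 := by
    have h5 : j + 1 = j + 0 := by rw [add_zero]; exact h3.symm
    exact add_left_cancel h5
  exact absurd h4 (by simp)

/-- **The local data of a family.** -/
theorem fam_data {r s n : ℕ} (hn : 2 ≤ n) (a b : Fin r → ℤ) (hD : ∀ i, Disc (a i : ℚ) (b i : ℚ))
    (F : Fin n → MvPolynomial (Fin (r + s) × Fin 3) ℤ) (j : Fin r) (d : Fin r → ℕ)
    (hF : ∀ k (i : Fin r), (F k).IsWeightedHomogeneous (wtj (Fin.castAdd s i)) (((k : ℕ) + 1) * d i))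
    (t₀ : Fin s → ℂ) (V : Fin r → Fin 3 → ℂ) (W : Fin 3 → PowerSeries ℂ) (m : ℕ)
    (haff : ∀ i, i ≠ j → V i 2 = 1 ∧ V i 1 ^ 2 = V i 0 ^ 3 + a i * V i 0 + b i)
    (hW0 : W ≠ 0) (hWE : W 1 ^ 2 * W 2 = W 0 ^ 3 + (a j : PowerSeries ℂ) * W 0 * W 2 ^ 2 +
      (b j : PowerSeries ℂ) * W 2 ^ 3)
    (hord : (evF (DFm F) (UU (fun i => PowerSeries.C (t₀ i))
      (fun i k => if i = j then W k else PowerSeries.C (V i k)))).order = m)
    (hm : Odd m)
    (hFull : Full1 (a j : ℂ) (b j : ℂ)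
      (fun k => evF (F k) (gen (Fin.castAdd s j) (a j : ℂ) (b j : ℂ) (UU t₀ V)))) :
    ∃ bb : MvPolynomial (Fin s) ℤ, MvPolynomial.aeval t₀ bb ≠ 0 ∧
      ∃ (bp : MvPolynomial (Fin (r + s) × Fin 3) ℤ) (C₁ : ℝ) (p₁ : ℕ), 0 ≤ C₁ ∧
        (∀ (p : ℕ) [Fact p.Prime], p₁ ≤ p → (∀ i, Disc (a i : ZMod p) (b i : ZMod p)) ∧ p ≠ 2) ∧
        ∀ (p : ℕ) [Fact p.Prime], p₁ ≤ p → ∀ t : Fin s → ZMod p, MvPolynomial.aeval t bb ≠ 0 →
          (∀ S : ∀ i, Finset (Pt (a i : ZMod p) (b i : ZMod p)),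
            (open Classical in (((Fintype.piFinset S).filter
              (fun P => evF bp (UU t (fun i => rep (P i))) = 0)).card : ℝ)) ≤ C₁ * bdT a b p S) ∧
          (∀ P : ∀ i, Pt (a i : ZMod p) (b i : ZMod p),
            GoodZ a b j p (fun P => evF bp (UU t (fun i => rep (P i))) = 0) P →
            ∃ Bd : Finset (Pt (a j : ZMod p) (b j : ZMod p)), 3 / 2 * (Bd.card : ℝ) ≤ C₁ ∧
              ∀ (σ : Equiv.Perm (Fin n)) h h', h ∉ Bd → h' ∉ Bd → h + h' ∉ Bd → h - h' ∉ Bd →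
              |∑ u : Pt (a j : ZMod p) (b j : ZMod p),
                gS σ (fun k => specF (F k) (Fin.castAdd s j) (UU t (fun i => rep (P i)))) u *
                gS σ (fun k => specF (F k) (Fin.castAdd s j) (UU t (fun i => rep (P i)))) (u + h) *
                gS σ (fun k => specF (F k) (Fin.castAdd s j) (UU t (fun i => rep (P i)))) (u + h') *
                gS σ (fun k => specF (F k) (Fin.castAdd s j) (UU t (fun i => rep (P i))))
                  (u + (h + h'))| ≤ C₁ * √p) := by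
  classical
  have hord' : (evF (DFm F) (fun i k => if i = Fin.castAdd s j then W k else
      PowerSeries.C (UU t₀ V i k))).order = m := by
    have e1 : (fun i k => if i = Fin.castAdd s j then W k else PowerSeries.C (UU t₀ V i k)) =
        UU (fun i => PowerSeries.C (t₀ i))
          (fun i k => if i = j then W k else PowerSeries.C (V i k)) := by
      rw [← UU_ite]
      funext i k
      split_ifs
      · rfl
      · exact congrFun (congrFun (UU_map (PowerSeries.C (R := ℂ)) t₀ V) i) k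
    rw [e1]
    exact hord
  obtain ⟨bp, V₀, Cl, p₀, hCl, hbp0, haff₀, hVV, hloc⟩ := local_Q hn (a j) (b j) (hD j) F
    (Fin.castAdd s j) (fun k => hF k j) (UU t₀ V) W m hW0 hWE hord' hm hFull
  obtain ⟨P₀, hP₀⟩ : ∃ P₀ : Fin r → Fin 3 → ℂ, P₀ = fun i => V₀ (Fin.castAdd s i) := ⟨_, rfl⟩
  have hV₀ : V₀ = UU t₀ P₀ := by
    funext i
    refine Fin.addCases (fun i => ?_) (fun i => ?_) i
    · rw [UU_cast, hP₀]
    · rw [hVV _ (nat_ne_cast i j), UU_nat, UU_nat]
  have haffP : ∀ i, P₀ i 2 = 1 ∧ P₀ i 1 ^ 2 = P₀ i 0 ^ 3 + a i * P₀ i 0 + b i := by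
    intro i
    by_cases hi : i = j
    · subst hi
      rw [hP₀]
      exact haff₀
    · have h1 : P₀ i = V i := by
        rw [hP₀]
        simp only
        rw [hVV _ (fun h => hi (Fin.castAdd_injective r s h)), UU_cast]
      rw [h1]
      exact haff i hi
  rw [hV₀] at hbp0
  obtain ⟨bb, Cs, ps, hbb0, hsz⟩ := sz_fam a b bp t₀ P₀ haffP hbp0
  choose q hq using fun i => disc_mod (hD i)
  refine ⟨bb, hbb0, bp, ?_⟩
  obtain ⟨C₁, hC₁⟩ : ∃ C₁ : ℝ, C₁ = max (Cs : ℝ) Cl := ⟨_, rfl⟩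
  have hC₁s : (Cs : ℝ) ≤ C₁ := by rw [hC₁]; exact le_max_left _ _
  have hC₁l : Cl ≤ C₁ := by rw [hC₁]; exact le_max_right _ _
  have hC₁0 : 0 ≤ C₁ := hCl.trans hC₁l
  obtain ⟨p₁, hp₁⟩ : ∃ p₁ : ℕ, p₁ = max (max p₀ ps) (∑ i, q i) := ⟨_, rfl⟩
  have hp₁a : ∀ p, p₁ ≤ p → p₀ ≤ p := fun p h =>
    ((le_max_left _ _).trans (le_max_left _ _)).trans (hp₁ ▸ h)
  have hp₁b : ∀ p, p₁ ≤ p → ps ≤ p := fun p h =>
    ((le_max_right _ _).trans (le_max_left _ _)).trans (hp₁ ▸ h)
  have hp₁c : ∀ p, p₁ ≤ p → ∀ i, q i ≤ p := fun p h i =>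
    ((single_le_sum (f := q) (fun _ _ => Nat.zero_le _) (mem_univ i)).trans
      (le_max_right _ _)).trans (hp₁ ▸ h)
  refine ⟨C₁, p₁, hC₁0, fun p _ hp => ⟨fun i => hq i p (hp₁c p hp i), (hloc p (hp₁a p hp)).2.1⟩, ?_⟩
  intro p _ hp t ht
  constructor
  · intro S
    have h1 := hsz p (hp₁b p hp) t ht S
    have h2 := (Nat.cast_le (α := ℝ)).2 h1
    push_cast at h2
    have h3 := h2.trans (mul_le_mul_of_nonneg_right hC₁s (Nat.cast_nonneg (bdT a b p S)))
    refine le_trans (le_of_eq ?_) h3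
    congr!
  · intro P hP
    obtain ⟨c, hc⟩ := hP
    obtain ⟨Bd, hB1, hB2⟩ := (hloc p (hp₁a p hp)).2.2 (UU t (fun i => rep (P i)))
      ⟨c, by
        rw [UU_update]
        have e1 : Function.update (fun i => rep (P i)) j (rep c) =
            fun i => rep (Function.update P j c i) := by
          funext i
          by_cases hi : i = j
          · subst hi
            rw [Function.update_self, Function.update_self]
          · rw [Function.update_of_ne hi, Function.update_of_ne hi]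
        rw [e1]
        exact hc⟩
    refine ⟨Bd, hB1.trans hC₁l, ?_⟩
    intro σ h h' e1 e2 e3 e4
    exact (hB2 σ h h' e1 e2 e3 e4).trans
      (mul_le_mul_of_nonneg_right hC₁l (Real.sqrt_nonneg _))

/-- the exceptional tuples -/
def Exc (K : Type) [Field K] [NumberField K] [DecidableEq K] {r s n : ℕ} (a b : Fin r → ℤ)
    (F : Fin n → MvPolynomial (Fin (r + s) × Fin 3) ℤ) (t : Fin s → K) (B : ℝ) :
    Set (∀ i, Pt (a i : K) (b i : K)) :=
  {P | (∀ i, hK (P i) ≤ B) ∧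
    (Nat.card (pol (fun k => evF (F k) (UU t (fun i => rep (P i))))).Gal ≠ Nat.factorial n ∨
      ∃ x : K, (pol (fun k => evF (F k) (UU t (fun i => rep (P i))))).IsRoot x)}

/-- the union over all permutations -/
theorem fam_union (K : Type) [Field K] [NumberField K] [DecidableEq K] {r s n : ℕ} (hn : 2 ≤ n)
    (a b : Fin r → ℤ) (F : Fin n → MvPolynomial (Fin (r + s) × Fin 3) ℤ) (sv : ℝ → ℝ)
    (hsv : ∀ B : ℝ, 1 ≤ B → 0 ≤ sv B) (Q : (Fin s → K) → ℝ → Prop)
    (hmain : ∀ σ : Equiv.Perm (Fin n), ∃ C : ℝ, 0 ≤ C ∧ ∀ (t : Fin s → K) (B : ℝ), 1 ≤ B → Q t B →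
      ({P : ∀ i, Pt (a i : K) (b i : K) | (∀ i, hK (P i) ≤ B) ∧
        ¬ TypeK (pol (fun k => evF (F k) (UU t (fun i => rep (P i))))) σ}.ncard : ℝ) ≤
      C * (sv B * ((ABg (fun i => hK (a := (a i : K)) (b := (b i : K))) B).ncard : ℝ))) :
    ∃ C : ℝ, 0 < C ∧ ∀ B : ℝ, 1 ≤ B →
      (ABg (fun i => hK (a := (a i : K)) (b := (b i : K))) B).Finite ∧
      ∀ t : Fin s → K, Q t B → ((Exc K a b F t B).ncard : ℝ) ≤
        C * (sv B * ((ABg (fun i => hK (a := (a i : K)) (b := (b i : K))) B).ncard : ℝ)) := by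
  classical
  choose C hC hCm using hmain
  refine ⟨∑ σ, C σ + 1, by
    have : 0 ≤ ∑ σ, C σ := sum_nonneg fun σ _ => hC σ
    linarith, ?_⟩
  intro B hB
  have hfin := ABg_finite (fun i => hK (a := (a i : K)) (b := (b i : K))) (fun i => northK) B
  refine ⟨hfin, ?_⟩
  intro t htQ
  obtain ⟨S, hS⟩ : ∃ S : Equiv.Perm (Fin n) → Set (∀ i, Pt (a i : K) (b i : K)), S = fun σ =>
    {P : ∀ i, Pt (a i : K) (b i : K) | (∀ i, hK (P i) ≤ B) ∧
      ¬ TypeK (pol (fun k => evF (F k) (UU t (fun i => rep (P i))))) σ} := ⟨_, rfl⟩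
  have hSf : ∀ σ, (S σ).Finite := fun σ => hfin.subset fun P hP => by
    rw [hS] at hP
    exact hP.1
  have hsub : Exc K a b F t B ⊆ ⋃ σ ∈ (Finset.univ : Finset (Equiv.Perm (Fin n))), S σ := by
    intro P hP
    rw [Set.mem_iUnion₂]
    rcases hP.2 with h | ⟨x, hx⟩
    · by_contra hcon
      apply h
      apply gal_of_typesK _ (pol_monic _) (pol_natDegree _)
      intro σ
      by_contra hσ
      apply hcon
      refine ⟨σ, Finset.mem_univ σ, ?_⟩
      rw [hS]
      exact ⟨hP.1, hσ⟩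
    · refine ⟨finRotate n, Finset.mem_univ _, ?_⟩
      rw [hS]
      exact ⟨hP.1, no_root hn _ (pol_monic _) (pol_natDegree _) x hx⟩
  have h0 : (0 : ℝ) ≤ sv B *
      ((ABg (fun i => hK (a := (a i : K)) (b := (b i : K))) B).ncard : ℝ) :=
    mul_nonneg (hsv B hB) (Nat.cast_nonneg _)
  have h1 : (Exc K a b F t B).ncard ≤ ∑ σ, (S σ).ncard := by
    refine (Set.ncard_le_ncard hsub ?_).trans ?_
    · exact Set.Finite.biUnion (Finset.finite_toSet _) fun σ _ => hSf σ
    · exact Finset.set_ncard_biUnion_le _ _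
  have h2 : ((∑ σ, (S σ).ncard : ℕ) : ℝ) ≤ (∑ σ, C σ) * (sv B *
        ((ABg (fun i => hK (a := (a i : K)) (b := (b i : K))) B).ncard : ℝ)) := by
    push_cast
    rw [sum_mul]
    refine sum_le_sum fun σ _ => ?_
    rw [hS]
    exact hCm σ t B hB htQ
  have h3 := (Nat.cast_le (α := ℝ)).2 h1
  refine h3.trans (h2.trans ?_)
  rw [add_mul, one_mul]
  linarith

theorem discK {K : Type} [Field K] [CharZero K] {r : ℕ} (a b : Fin r → ℤ)
    (hD : ∀ i, Disc (a i : ℚ) (b i : ℚ)) : ∀ i, Disc (a i : K) (b i : K) := by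
  intro i h0
  apply hD i
  have h1 : ((2 * (4 * a i ^ 3 + 27 * b i ^ 2) : ℤ) : K) = 0 := by
    push_cast
    exact h0
  have h2 : (2 * (4 * a i ^ 3 + 27 * b i ^ 2) : ℤ) = 0 := by exact_mod_cast h1
  have h3 : ((2 * (4 * a i ^ 3 + 27 * b i ^ 2) : ℤ) : ℚ) = 0 := by rw [h2, Int.cast_zero]
  push_cast at h3
  exact h3

/-- the parameters with a bound for their heights -/
def Par (K : Type) [Field K] [NumberField K] {s : ℕ} (bb : MvPolynomial (Fin s) ℤ) : Type :=
  {θ : (Fin s → K) × ℝ // 1 ≤ θ.2 ∧ (∀ i, logHeight₁ (θ.1 i) ≤ θ.2) ∧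
    MvPolynomial.aeval θ.1 bb ≠ 0}

/-- the bad primes of a parameter -/
def badP (K : Type) [Field K] [NumberField K] {s : ℕ} (bb : MvPolynomial (Fin s) ℤ)
    (θ : Par K bb) (p : ℕ) : Prop :=
  ¬ ∃ (_ : Fact p.Prime) (h : AdmK K p), (∀ i, θ.1.1 i ∈ (vK K p h).A) ∧
    MvPolynomial.aeval (fun i => (vK K p h).r (θ.1.1 i)) bb ≠ 0

theorem badP_card (K : Type) [Field K] [NumberField K] {s : ℕ} (bb : MvPolynomial (Fin s) ℤ) :
    ∃ Cb : ℝ, 0 ≤ Cb ∧ ∀ θ : Par K bb, ∀ S : Finset ℕ,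
      (∀ p ∈ S, p.Prime ∧ AdmK K p ∧ badP K bb θ p) → (S.card : ℝ) ≤ Cb * θ.1.2 := by
  obtain ⟨Cb, hCb, hbadp⟩ := bad_params K bb
  refine ⟨Cb, hCb, ?_⟩
  intro θ S hS
  refine hbadp θ.1.1 θ.1.2 θ.2.1 θ.2.2.1 θ.2.2.2 S ?_
  intro p hp
  obtain ⟨h1, h2, h3⟩ := hS p hp
  exact ⟨⟨h1⟩, h2, fun h4 => h3 ⟨⟨h1⟩, h2, h4⟩⟩

theorem good_spec (K : Type) [Field K] [NumberField K] {s : ℕ} (bb : MvPolynomial (Fin s) ℤ)
    (θ : Par K bb) (p : ℕ) [Fact p.Prime] (h : AdmK K p) (hb : ¬ badP K bb θ p) :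
    (∀ i, θ.1.1 i ∈ (vK K p h).A) ∧ MvPolynomial.aeval (rt K p θ.1.1) bb ≠ 0 := by
  have hb' := not_not.1 hb
  obtain ⟨_, h', h1, h2⟩ := hb'
  rw [rt_eq K p h]
  exact ⟨h1, h2⟩

/-- **The main theorem for families.** -/
theorem main_fam {r s n : ℕ} (hn : 2 ≤ n) (a b : Fin r → ℤ) (hD : ∀ i, Disc (a i : ℚ) (b i : ℚ))
    (F : Fin n → MvPolynomial (Fin (r + s) × Fin 3) ℤ) (j : Fin r) (d : Fin r → ℕ)
    (hF : ∀ k (i : Fin r), (F k).IsWeightedHomogeneous (wtj (Fin.castAdd s i)) (((k : ℕ) + 1) * d i))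
    (t₀ : Fin s → ℂ) (V : Fin r → Fin 3 → ℂ) (W : Fin 3 → PowerSeries ℂ) (m : ℕ)
    (haff : ∀ i, i ≠ j → V i 2 = 1 ∧ V i 1 ^ 2 = V i 0 ^ 3 + a i * V i 0 + b i)
    (hW0 : W ≠ 0) (hWE : W 1 ^ 2 * W 2 = W 0 ^ 3 + (a j : PowerSeries ℂ) * W 0 * W 2 ^ 2 +
      (b j : PowerSeries ℂ) * W 2 ^ 3)
    (hord : (evF (DFm F) (UU (fun i => PowerSeries.C (t₀ i))
      (fun i k => if i = j then W k else PowerSeries.C (V i k)))).order = m)
    (hm : Odd m)
    (hFull : Full1 (a j : ℂ) (b j : ℂ)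
      (fun k => evF (F k) (gen (Fin.castAdd s j) (a j : ℂ) (b j : ℂ) (UU t₀ V)))) :
    ∃ bb : MvPolynomial (Fin s) ℤ, MvPolynomial.aeval t₀ bb ≠ 0 ∧
      ∀ (K : Type) [Field K] [NumberField K] [DecidableEq K],
        (∀ mm : ℕ, (∀ i, mm ≤ Module.finrank ℤ (Pt (a i : K) (b i : K))) →
          ∃ C : ℝ, 0 < C ∧ ∀ B : ℝ, 1 ≤ B →
            (ABg (fun i => hK (a := (a i : K)) (b := (b i : K))) B).Finite ∧
            ∀ t : Fin s → K, (∀ i, logHeight₁ (t i) ≤ B ^ (3 / 10 * (mm : ℝ))) ∧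
              MvPolynomial.aeval t bb ≠ 0 → ((Exc K a b F t B).ncard : ℝ) ≤
              C * (B ^ ((2 - 98 / 1000 * (mm : ℝ)) / 2) *
                ((ABg (fun i => hK (a := (a i : K)) (b := (b i : K))) B).ncard : ℝ))) ∧
        ((∀ i, 1 ≤ Module.finrank ℤ (Pt (a i : K) (b i : K))) →
          3 ≤ Module.finrank ℤ (Pt (a j : K) (b j : K)) →
          ∃ C : ℝ, 0 < C ∧ ∀ B : ℝ, 1 ≤ B →
            (ABg (fun i => hK (a := (a i : K)) (b := (b i : K))) B).Finite ∧
            ∀ t : Fin s → K, (∀ i, logHeight₁ (t i) ≤ B ^ (33 / 200 : ℝ)) ∧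
              MvPolynomial.aeval t bb ≠ 0 → ((Exc K a b F t B).ncard : ℝ) ≤
              C * (B ^ (-(1 / 300) : ℝ) *
                ((ABg (fun i => hK (a := (a i : K)) (b := (b i : K))) B).ncard : ℝ))) := by
  classical
  obtain ⟨bb, hbb0, bp, C₁, p₁, hC₁0, hdisc, hloc⟩ := fam_data hn a b hD F j d hF t₀ V W m haff hW0
    hWE hord hm hFull
  refine ⟨bb, hbb0, ?_⟩
  intro K _ _ _
  have hDK := discK (K := K) a b hD
  obtain ⟨Cb, hCb, hbad⟩ := badP_card K bb
  constructor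
  · intro mm hrk
    refine fam_union K hn a b F (fun B => B ^ ((2 - 98 / 1000 * (mm : ℝ)) / 2))
      (fun B hB => by positivity)
      (fun t B => (∀ i, logHeight₁ (t i) ≤ B ^ (3 / 10 * (mm : ℝ))) ∧ MvPolynomial.aeval t bb ≠ 0) ?_
    intro σ
    obtain ⟨C, hC, hm⟩ := points_fam a b (fun i => Pt (a i : K) (b i : K)) (fun i => hK) (AdmK K)
      (fun p _ i => rdK K p (a i) (b i)) (fun i => killK K (a i) (b i)) (supK K)
      (fun i => t_M1K K _ _ (hDK i)) (fun i => hK_nonneg) (fun i => northK)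
      (fun i => canonK (hDK i)) (fun i => hK_zero) j (Par K bb) (fun θ => θ.1.2) (badP K bb) Cb
      hbad hCb
      (fun θ P => ¬ TypeK (pol (fun k => evF (F k) (UU θ.1.1 (fun i => rep (P i))))) σ)
      (fun θ p _ P u => gS σ (fun k => specF (F k) (Fin.castAdd s j)
        (UU (rt K p θ.1.1) (fun i => rep (P i)))) u)
      (fun θ p _ P u => gS_abs_le (by omega) σ _ u)
      (fun θ p _ P P' h => by
        have h1 : ∀ k, specF (F k) (Fin.castAdd s j) (UU (rt K p θ.1.1) (fun i => rep (P i))) =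
            specF (F k) (Fin.castAdd s j) (UU (rt K p θ.1.1) (fun i => rep (P' i))) := by
          intro k
          apply specF_congr
          exact UU_off _ _ _ j (fun i hi => by rw [h i hi])
        funext u
        simp only [h1])
      (fun θ p _ P => evF bp (UU (rt K p θ.1.1) (fun i => rep (P i))) = 0)
      C₁ p₁ hC₁0 hdisc
      (fun θ p _ hp hA hb => by
        obtain ⟨hg1, hg2⟩ := hloc p hp (rt K p θ.1.1) (good_spec K bb θ p hA hb).2
        refine ⟨?_, ?_⟩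
        · intro S
          refine le_trans (le_of_eq ?_) (hg1 S)
          congr!
        · intro P hP
          obtain ⟨Bd, hB1, hB2⟩ := hg2 P hP
          exact ⟨Bd, hB1, hB2 σ⟩)
      (1 / (n : ℝ) ^ n)
      (by
        have : (0 : ℝ) < n := by
          have : 0 < n := by omega
          exact_mod_cast this
        positivity)
      (fun θ p _ hp hA hb P hP => by
        apply gS_ge
        rw [rt_eq K p hA]
        exact lift_fam K a b F j d hF p hA (hdisc p hp).1 θ.1.1 (good_spec K bb θ p hA hb).1 P σ hP) mm hrk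
    refine ⟨C, hC, ?_⟩
    intro t B hB htQ
    exact hm ⟨(t, B ^ (3 / 10 * (mm : ℝ))), Real.one_le_rpow hB (by positivity), htQ.1, htQ.2⟩ B hB
      le_rfl
  · intro hrk hrj
    refine fam_union K hn a b F (fun B => B ^ (-(1 / 300) : ℝ)) (fun B hB => by positivity)
      (fun t B => (∀ i, logHeight₁ (t i) ≤ B ^ (33 / 200 : ℝ)) ∧ MvPolynomial.aeval t bb ≠ 0) ?_
    intro σ
    obtain ⟨C, hC, hm⟩ := points_genF a b (fun i => Pt (a i : K) (b i : K)) (fun i => hK) (AdmK K)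
      (fun p _ i => rdK K p (a i) (b i)) (fun i => killK K (a i) (b i)) (supK K)
      (fun i => t_M1K K _ _ (hDK i)) (fun i => hK_nonneg) (fun i => northK)
      (fun i => canonK (hDK i)) (fun i => hK_zero) j (Par K bb) (fun θ => θ.1.2) (badP K bb) Cb
      hbad hCb
      (fun θ P => ¬ TypeK (pol (fun k => evF (F k) (UU θ.1.1 (fun i => rep (P i))))) σ)
      (fun θ p _ P u => gS σ (fun k => specF (F k) (Fin.castAdd s j)
        (UU (rt K p θ.1.1) (fun i => rep (P i)))) u)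
      (fun θ p _ P u => gS_abs_le (by omega) σ _ u)
      (fun θ p _ P P' h => by
        have h1 : ∀ k, specF (F k) (Fin.castAdd s j) (UU (rt K p θ.1.1) (fun i => rep (P i))) =
            specF (F k) (Fin.castAdd s j) (UU (rt K p θ.1.1) (fun i => rep (P' i))) := by
          intro k
          apply specF_congr
          exact UU_off _ _ _ j (fun i hi => by rw [h i hi])
        funext u
        simp only [h1])
      (fun θ p _ P => evF bp (UU (rt K p θ.1.1) (fun i => rep (P i))) = 0)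
      C₁ p₁ hC₁0 hdisc
      (fun θ p _ hp hA hb => by
        obtain ⟨hg1, hg2⟩ := hloc p hp (rt K p θ.1.1) (good_spec K bb θ p hA hb).2
        refine ⟨?_, ?_⟩
        · intro S
          refine le_trans (le_of_eq ?_) (hg1 S)
          congr!
        · intro P hP
          obtain ⟨Bd, hB1, hB2⟩ := hg2 P hP
          exact ⟨Bd, hB1, hB2 σ⟩)
      (1 / (n : ℝ) ^ n)
      (by
        have : (0 : ℝ) < n := by
          have : 0 < n := by omega
          exact_mod_cast this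
        positivity)
      (fun θ p _ hp hA hb P hP => by
        apply gS_ge
        rw [rt_eq K p hA]
        exact lift_fam K a b F j d hF p hA (hdisc p hp).1 θ.1.1 (good_spec K bb θ p hA hb).1 P σ hP) hrk hrj
    refine ⟨C, hC, ?_⟩
    intro t B hB htQ
    exact hm ⟨(t, B ^ (33 / 200 : ℝ)), Real.one_le_rpow hB (by norm_num), htQ.1, htQ.2⟩ B hB
      le_rfl

end Pool.Agent.K9h5.Q
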